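import Pool.Agent.MP_781439_al.Defs

/-!
Basic facts on right-angled Artin groups: generators, universal property, parabolic subgroups,
retractions and exponent sums.
-/

namespace Pool.Agent.MP_781439_al

variable {V : Type} (Γ : SimpleGraph V)

/-- The generator attached to a vertex. -/
def gen (u : V) : RAAG Γ := PresentedGroup.of u

variable {Γ}

lemma gen_comm {u v : V} (h : Γ.Adj u v) : Commute (gen Γ u) (gen Γ v) := by
  have h1 : PresentedGroup.mk (raagRels Γ)
      (FreeGroup.of u * FreeGroup.of v * (FreeGroup.of u)⁻¹ * (FreeGroup.of v)⁻¹) = 1 :=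
    PresentedGroup.one_of_mem ⟨u, v, h, rfl⟩
  simp only [map_mul, map_inv] at h1
  change gen Γ u * gen Γ v * (gen Γ u)⁻¹ * (gen Γ v)⁻¹ = 1 at h1
  rw [Commute, SemiconjBy]
  calc gen Γ u * gen Γ v = (gen Γ u * gen Γ v * (gen Γ u)⁻¹ * (gen Γ v)⁻¹) * (gen Γ v * gen Γ u) := by
        group
    _ = gen Γ v * gen Γ u := by rw [h1, one_mul]

/-- The universal property. -/
def lift {G : Type*} [Group G] (f : V → G) (hf : ∀ u v, Γ.Adj u v → Commute (f u) (f v)) :
    RAAG Γ →* G :=
  PresentedGroup.toGroup (f := f) (by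
    rintro r ⟨u, v, huv, rfl⟩
    simp only [map_mul, map_inv, FreeGroup.lift_apply_of]
    rw [(hf u v huv).eq]; group)

@[simp] lemma lift_gen {G : Type*} [Group G] (f : V → G)
    (hf : ∀ u v, Γ.Adj u v → Commute (f u) (f v)) (u : V) : lift f hf (gen Γ u) = f u :=
  PresentedGroup.toGroup.of _

lemma hom_ext {G : Type*} [Group G] {f g : RAAG Γ →* G}
    (h : ∀ u, f (gen Γ u) = g (gen Γ u)) : f = g :=
  PresentedGroup.ext h

variable (Γ)

/-- The parabolic subgroup generated by a set of vertices. -/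
def par (S : Set V) : Subgroup (RAAG Γ) := Subgroup.closure (gen Γ '' S)

lemma par_univ : par Γ Set.univ = ⊤ := by
  rw [par, Set.image_univ]
  exact PresentedGroup.closure_range_of _

lemma par_empty : par Γ ∅ = ⊥ := by simp [par]

variable {Γ}

lemma gen_mem_par {S : Set V} {u : V} (h : u ∈ S) : gen Γ u ∈ par Γ S :=
  Subgroup.subset_closure ⟨u, h, rfl⟩

lemma par_mono {S T : Set V} (h : S ⊆ T) : par Γ S ≤ par Γ T :=
  Subgroup.closure_mono (Set.image_mono h)

lemma par_induction {S : Set V} {P : RAAG Γ → Prop} (h1 : P 1) (hgen : ∀ u ∈ S, P (gen Γ u))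
    (hmul : ∀ a b, P a → P b → P (a * b)) (hinv : ∀ a, P a → P a⁻¹) {g : RAAG Γ}
    (hg : g ∈ par Γ S) : P g := by
  induction hg using Subgroup.closure_induction with
  | mem x hx => obtain ⟨u, hu, rfl⟩ := hx; exact hgen u hu
  | one => exact h1
  | mul a b _ _ ha hb => exact hmul a b ha hb
  | inv a _ ha => exact hinv a ha

lemma raag_induction {P : RAAG Γ → Prop} (h1 : P 1) (hgen : ∀ u, P (gen Γ u))
    (hmul : ∀ a b, P a → P b → P (a * b)) (hinv : ∀ a, P a → P a⁻¹) (g : RAAG Γ) : P g :=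
  par_induction (S := Set.univ) h1 (fun u _ => hgen u) hmul hinv (by rw [par_univ]; trivial)

open Classical in
/-- The retraction onto a parabolic subgroup. -/
noncomputable def retr (Γ : SimpleGraph V) (S : Set V) : RAAG Γ →* RAAG Γ :=
  lift (fun u => if u ∈ S then gen Γ u else 1) (by
    intro u v huv
    by_cases hu : u ∈ S <;> by_cases hv : v ∈ S <;> simp [hu, hv, gen_comm huv])

lemma retr_gen_of_mem {S : Set V} {u : V} (h : u ∈ S) : retr Γ S (gen Γ u) = gen Γ u := by
  simp [retr, h]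

lemma retr_gen_of_notMem {S : Set V} {u : V} (h : u ∉ S) : retr Γ S (gen Γ u) = 1 := by
  simp [retr, h]

lemma retr_mem_inter {S T : Set V} {g : RAAG Γ} (hg : g ∈ par Γ T) :
    retr Γ S g ∈ par Γ (S ∩ T) := by
  refine par_induction (P := fun g => retr Γ S g ∈ par Γ (S ∩ T)) ?_ ?_ ?_ ?_ hg
  · simp
  · intro u hu
    by_cases h : u ∈ S
    · rw [retr_gen_of_mem h]; exact gen_mem_par ⟨h, hu⟩
    · rw [retr_gen_of_notMem h]; exact one_mem _
  · intro a b ha hb; rw [map_mul]; exact mul_mem ha hb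
  · intro a ha; rw [map_inv]; exact inv_mem ha

lemma retr_mem (S : Set V) (g : RAAG Γ) : retr Γ S g ∈ par Γ S := by
  have := retr_mem_inter (S := S) (T := Set.univ) (g := g) (by rw [par_univ]; trivial)
  rwa [Set.inter_univ] at this

lemma retr_of_mem {S : Set V} {g : RAAG Γ} (hg : g ∈ par Γ S) : retr Γ S g = g := by
  refine par_induction (P := fun g => retr Γ S g = g) ?_ ?_ ?_ ?_ hg
  · simp
  · intro u hu; exact retr_gen_of_mem hu
  · intro a b ha hb; rw [map_mul, ha, hb]
  · intro a ha; rw [map_inv, ha]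

lemma mem_par_inter {S T : Set V} {g : RAAG Γ} (hS : g ∈ par Γ S) (hT : g ∈ par Γ T) :
    g ∈ par Γ (S ∩ T) := by
  have := retr_mem_inter (S := S) hT
  rwa [retr_of_mem hS] at this

lemma commute_of_mem_par {S T : Set V} (h : ∀ s ∈ S, ∀ t ∈ T, Γ.Adj s t) {a b : RAAG Γ}
    (ha : a ∈ par Γ S) (hb : b ∈ par Γ T) : Commute a b := by
  refine par_induction (P := fun a => Commute a b) ?_ ?_ ?_ ?_ ha
  · exact Commute.one_left _
  · intro s hs
    refine par_induction (P := fun b => Commute (gen Γ s) b) ?_ ?_ ?_ ?_ hb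
    · exact Commute.one_right _
    · intro t ht; exact gen_comm (h s hs t ht)
    · intro x y hx hy; exact hx.mul_right hy
    · intro x hx; exact hx.inv_right
  · intro x y hx hy; exact hx.mul_left hy
  · intro x hx; exact hx.inv_left

open Classical in
/-- The sum of the exponents of the generators in `S`. -/
noncomputable def expoHom (Γ : SimpleGraph V) (S : Set V) : RAAG Γ →* Multiplicative ℤ :=
  lift (fun u => if u ∈ S then Multiplicative.ofAdd 1 else 1) (fun _ _ _ => Commute.all _ _)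

/-- The sum of the exponents of the generators in `S`, as an integer. -/
noncomputable def expo (Γ : SimpleGraph V) (S : Set V) (g : RAAG Γ) : ℤ :=
  Multiplicative.toAdd (expoHom Γ S g)

lemma expo_one (S : Set V) : expo Γ S 1 = 0 := by simp [expo]

lemma expo_mul (S : Set V) (a b : RAAG Γ) : expo Γ S (a * b) = expo Γ S a + expo Γ S b := by
  simp [expo]

lemma expo_inv (S : Set V) (a : RAAG Γ) : expo Γ S a⁻¹ = -expo Γ S a := by simp [expo]

lemma expo_gen_of_mem {S : Set V} {u : V} (h : u ∈ S) : expo Γ S (gen Γ u) = 1 := by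
  simp [expo, expoHom, h]

lemma expo_gen_of_notMem {S : Set V} {u : V} (h : u ∉ S) : expo Γ S (gen Γ u) = 0 := by
  simp [expo, expoHom, h]

lemma expo_pow (S : Set V) (a : RAAG Γ) (n : ℕ) : expo Γ S (a ^ n) = n * expo Γ S a := by
  simp [expo]

lemma expo_zpow (S : Set V) (a : RAAG Γ) (n : ℤ) : expo Γ S (a ^ n) = n * expo Γ S a := by
  simp [expo]

lemma expo_of_mem_par {S T : Set V} (h : ∀ u ∈ T, u ∉ S) {g : RAAG Γ} (hg : g ∈ par Γ T) :
    expo Γ S g = 0 := by
  refine par_induction (P := fun g => expo Γ S g = 0) ?_ ?_ ?_ ?_ hg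
  · exact expo_one S
  · intro u hu; exact expo_gen_of_notMem (h u hu)
  · intro a b ha hb; rw [expo_mul, ha, hb]; rfl
  · intro a ha; rw [expo_inv, ha]; rfl

lemma gen_ne_one (u : V) : gen Γ u ≠ 1 := by
  intro h
  have := expo_gen_of_mem (Γ := Γ) (S := Set.univ) (u := u) trivial
  rw [h, expo_one] at this
  exact zero_ne_one this

lemma infinite_par {S : Set V} (h : S.Nonempty) : Infinite (par Γ S) := by
  obtain ⟨u, hu⟩ := h
  refine Infinite.of_injective
    (fun n : ℕ => (⟨gen Γ u ^ n, pow_mem (gen_mem_par hu) n⟩ : par Γ S)) ?_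
  intro m n hmn
  have h1 := congrArg (fun x : par Γ S => expo Γ Set.univ x.1) hmn
  simp only [expo_pow, expo_gen_of_mem (Set.mem_univ u), mul_one] at h1
  exact_mod_cast h1

/-- Every element lies in a parabolic subgroup on finitely many vertices. -/
lemma exists_finset_par (g : RAAG Γ) : ∃ F : Finset V, g ∈ par Γ (F : Set V) := by
  classical
  refine raag_induction (P := fun g => ∃ F : Finset V, g ∈ par Γ (F : Set V)) ?_ ?_ ?_ ?_ g
  · exact ⟨∅, one_mem _⟩
  · intro u; exact ⟨{u}, gen_mem_par (by simp)⟩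
  · rintro a b ⟨F, hF⟩ ⟨F', hF'⟩
    exact ⟨F ∪ F', mul_mem (par_mono (by simp) hF) (par_mono (by simp) hF')⟩
  · rintro a ⟨F, hF⟩; exact ⟨F, inv_mem hF⟩

/-- A join decomposition of the graph gives a direct product decomposition of the group. -/
lemma isProduct_of_join {S : Set V} (hS : S.Nonempty) (hS' : Sᶜ.Nonempty)
    (h : ∀ s ∈ S, ∀ t ∈ Sᶜ, Γ.Adj s t) : IsProductOfInfinite (RAAG Γ) := by
  refine ⟨par Γ S, par Γ Sᶜ, inferInstance, inferInstance, infinite_par hS, infinite_par hS', ⟨?_⟩⟩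
  have key : ∀ g : RAAG Γ, retr Γ S g * retr Γ Sᶜ g = g := by
    intro g
    refine raag_induction (P := fun g => retr Γ S g * retr Γ Sᶜ g = g) ?_ ?_ ?_ ?_ g
    · simp
    · intro u
      by_cases hu : u ∈ S
      · rw [retr_gen_of_mem hu, retr_gen_of_notMem (by simpa using hu), mul_one]
      · rw [retr_gen_of_notMem hu, retr_gen_of_mem (by simpa using hu), one_mul]
    · intro a b ha hb
      have hc := commute_of_mem_par h (retr_mem S b) (retr_mem Sᶜ a)
      rw [map_mul, map_mul]
      calc retr Γ S a * retr Γ S b * (retr Γ Sᶜ a * retr Γ Sᶜ b)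
          = retr Γ S a * (retr Γ S b * retr Γ Sᶜ a) * retr Γ Sᶜ b := by group
        _ = retr Γ S a * (retr Γ Sᶜ a * retr Γ S b) * retr Γ Sᶜ b := by rw [hc.eq]
        _ = (retr Γ S a * retr Γ Sᶜ a) * (retr Γ S b * retr Γ Sᶜ b) := by group
        _ = a * b := by rw [ha, hb]
    · intro a ha
      have hc := commute_of_mem_par h (retr_mem S a) (retr_mem Sᶜ a)
      rw [map_inv, map_inv, ← mul_inv_rev, ← hc.eq, ha]
  have k1 : ∀ b ∈ par Γ Sᶜ, retr Γ S b = 1 := by
    intro b hb
    have := retr_mem_inter (S := S) hb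
    rwa [Set.inter_compl_self, par_empty, Subgroup.mem_bot] at this
  have k2 : ∀ a ∈ par Γ S, retr Γ Sᶜ a = 1 := by
    intro a ha
    have := retr_mem_inter (S := Sᶜ) ha
    rwa [Set.compl_inter_self, par_empty, Subgroup.mem_bot] at this
  exact
    { toFun := fun g => (⟨retr Γ S g, retr_mem S g⟩, ⟨retr Γ Sᶜ g, retr_mem Sᶜ g⟩)
      invFun := fun p => p.1.1 * p.2.1
      left_inv := key
      right_inv := by
        rintro ⟨⟨a, ha⟩, ⟨b, hb⟩⟩
        ext
        · simp [retr_of_mem ha, k1 b hb]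
        · simp [retr_of_mem hb, k2 a ha]
      map_mul' := by
        intro a b
        ext <;> simp }

lemma isCyclic_of_subsingleton [Subsingleton V] : IsCyclic (RAAG Γ) := by
  by_cases hV : Nonempty V
  · obtain ⟨v⟩ := hV
    refine ⟨⟨gen Γ v, fun g => ?_⟩⟩
    change g ∈ Subgroup.zpowers (gen Γ v)
    refine raag_induction (P := fun g => g ∈ Subgroup.zpowers (gen Γ v)) ?_ ?_ ?_ ?_ g
    · exact one_mem _
    · intro u; rw [Subsingleton.elim u v]; exact Subgroup.mem_zpowers _
    · intro a b ha hb; exact mul_mem ha hb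
    · intro a ha; exact inv_mem ha
  · refine ⟨⟨1, fun g => ?_⟩⟩
    change g ∈ Subgroup.zpowers (1 : RAAG Γ)
    refine raag_induction (P := fun g => g ∈ Subgroup.zpowers (1 : RAAG Γ)) ?_ ?_ ?_ ?_ g
    · exact one_mem _
    · intro u; exact (hV ⟨u⟩).elim
    · intro a b ha hb; exact mul_mem ha hb
    · intro a ha; exact inv_mem ha

end Pool.Agent.MP_781439_al
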