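import Mathlib

/-!
Finite approximations (conditions) to an order-preserving action of an HNN extension
`⟨H, t | t l = l t (l ∈ L)⟩`, and insertion of new free `H`-orbits into the order.
-/

namespace Pool.Agent.MP_781439_al

/-- The group-theoretic data used in the construction. -/
structure Setup (H : Type) [Group H] where
  L : Subgroup H
  ρ : H →* H
  ρ_mem : ∀ h, ρ h ∈ L
  ρ_of_mem : ∀ l ∈ L, ρ l = l
  φ : H → ℤ
  φ_mul : ∀ a b, φ (a * b) = φ a + φ b
  φ_L : ∀ l ∈ L, φ l = 0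
  O : Type
  ordO : LinearOrder O
  ω : H → O
  ω_mul : ∀ h g g', ω g < ω g' → ω (h * g) < ω (h * g')
  ω_eq : ∀ g g', ω g = ω g' ↔ g⁻¹ * g' ∈ L
  O' : Type
  ordO' : LinearOrder O'
  ω' : H → O'
  ω'_mul : ∀ h g g', ω' g < ω' g' → ω' (h * g) < ω' (h * g')
  ω'_inj : Function.Injective ω'
  mal : ∀ N : ℤ, ∃ κ, N ≤ φ κ ∧ ∀ l ∈ L, κ⁻¹ * l * κ ∈ L → l = 1

attribute [instance] Setup.ordO Setup.ordO'

/-- Points of the free `H`-set with countably many orbits. -/
@[ext] structure Pt (H : Type) where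
  g : H
  i : ℕ

variable {H : Type} [Group H]

instance : MulAction H (Pt H) where
  smul h u := ⟨h * u.g, u.i⟩
  one_smul u := by cases u; exact Pt.ext (one_mul _) rfl
  mul_smul a b u := Pt.ext (mul_assoc _ _ _) rfl

@[simp] lemma Pt.smul_g (h : H) (u : Pt H) : (h • u).g = h * u.g := rfl
@[simp] lemma Pt.smul_i (h : H) (u : Pt H) : (h • u).i = u.i := rfl

lemma Pt.smul_cancel {h h' : H} {u : Pt H} (e : h • u = h' • u) : h = h' :=
  mul_right_cancel (congrArg Pt.g e)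

instance [Countable H] : Countable (Pt H) :=
  Function.Injective.countable (f := fun u : Pt H => (u.g, u.i))
    (fun _ _ h => Pt.ext (congrArg Prod.fst h) (congrArg Prod.snd h))

lemma Setup.φ_one (X : Setup H) : X.φ 1 = 0 := X.φ_L 1 (one_mem _)

lemma Setup.φ_inv (X : Setup H) (a : H) : X.φ a⁻¹ = -X.φ a := by
  have := X.φ_mul a a⁻¹
  rw [mul_inv_cancel, X.φ_one] at this
  linarith

lemma Setup.ω_mul_eq (X : Setup H) (h : H) {g g' : H} (e : X.ω g = X.ω g') :
    X.ω (h * g) = X.ω (h * g') := by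
  rw [X.ω_eq] at e ⊢
  simpa [mul_assoc] using e

lemma Setup.ω_mul_right (X : Setup H) (g : H) {l : H} (hl : l ∈ X.L) : X.ω (g * l) = X.ω g := by
  rw [X.ω_eq]; simpa using hl

/-- The level of a point. -/
def Setup.lev (X : Setup H) (c : ℕ → ℤ) (u : Pt H) : ℤ := X.φ u.g + c u.i

lemma Setup.lev_smul (X : Setup H) (c : ℕ → ℤ) (h : H) (u : Pt H) :
    X.lev c (h • u) = X.φ h + X.lev c u := by
  simp [Setup.lev, X.φ_mul, add_assoc]

lemma Setup.lev_smul_L (X : Setup H) (c : ℕ → ℤ) {l : H} (hl : l ∈ X.L) (u : Pt H) :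
    X.lev c (l • u) = X.lev c u := by
  rw [X.lev_smul, X.φ_L l hl, zero_add]

/-- A condition: an invariant order on finitely many orbits and a partial monotone map. -/
structure Cond (X : Setup H) where
  J : Finset ℕ
  r : Pt H → Pt H → Prop
  c : ℕ → ℤ
  T : Pt H → Pt H → Prop
  r_supp : ∀ {x y}, r x y → x.i ∈ J ∧ y.i ∈ J
  r_irrefl : ∀ x, ¬ r x x
  r_trans : ∀ {x y z}, r x y → r y z → r x z
  r_tri : ∀ x y, x.i ∈ J → y.i ∈ J → r x y ∨ x = y ∨ r y x
  r_smul : ∀ (h : H) {x y}, r x y → r (h • x) (h • y)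
  r_lev : ∀ {x y}, r x y → X.lev c x ≤ X.lev c y
  T_supp : ∀ {x y}, T x y → x.i ∈ J ∧ y.i ∈ J
  T_smul : ∀ {l : H}, l ∈ X.L → ∀ {x y}, T x y → T (l • x) (l • y)
  T_mono : ∀ {x y x' y'}, T x y → T x' y' → (r x x' ↔ r y y')
  T_bdd : ∃ M : ℤ, ∀ x y, T x y → |X.lev c x| ≤ M ∧ |X.lev c y| ≤ M

variable {X : Setup H}

namespace Cond

/-- The level of a point in a condition. -/
abbrev lev (p : Cond X) (u : Pt H) : ℤ := X.lev p.c u

instance : Preorder (Cond X) where
  le p q := p.J ⊆ q.J ∧ (∀ x y, p.r x y → q.r x y) ∧ (∀ i ∈ p.J, q.c i = p.c i) ∧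
    ∀ x y, p.T x y → q.T x y
  le_refl p := ⟨le_rfl, fun _ _ h => h, fun _ _ => rfl, fun _ _ h => h⟩
  le_trans p q s h1 h2 := ⟨h1.1.trans h2.1, fun x y h => h2.2.1 x y (h1.2.1 x y h),
    fun i hi => (h2.2.2.1 i (h1.1 hi)).trans (h1.2.2.1 i hi),
    fun x y h => h2.2.2.2 x y (h1.2.2.2 x y h)⟩

lemma le_J {p q : Cond X} (h : p ≤ q) {i : ℕ} (hi : i ∈ p.J) : i ∈ q.J := h.1 hi
lemma le_r {p q : Cond X} (h : p ≤ q) {x y : Pt H} (hr : p.r x y) : q.r x y := h.2.1 x y hr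
lemma le_T {p q : Cond X} (h : p ≤ q) {x y : Pt H} (hr : p.T x y) : q.T x y := h.2.2.2 x y hr

lemma le_lev {p q : Cond X} (h : p ≤ q) {x : Pt H} (hx : x.i ∈ p.J) : q.lev x = p.lev x := by
  simp only [lev, Setup.lev, h.2.2.1 _ hx]

lemma r_asymm (p : Cond X) {x y : Pt H} (h : p.r x y) : ¬ p.r y x :=
  fun h' => p.r_irrefl x (p.r_trans h h')

lemma r_of_le {p q : Cond X} (h : p ≤ q) {x y : Pt H} (hx : x.i ∈ p.J) (hy : y.i ∈ p.J)
    (hr : q.r x y) : p.r x y := by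
  rcases p.r_tri x y hx hy with h1 | rfl | h1
  · exact h1
  · exact (q.r_irrefl _ hr).elim
  · exact (q.r_asymm hr (le_r h h1)).elim

lemma r_of_lev (p : Cond X) {x y : Pt H} (hx : x.i ∈ p.J) (hy : y.i ∈ p.J)
    (h : p.lev x < p.lev y) : p.r x y := by
  rcases p.r_tri x y hx hy with h1 | rfl | h1
  · exact h1
  · exact (lt_irrefl _ h).elim
  · exact absurd (p.r_lev h1) (not_le.2 h)

lemma r_smul_iff (p : Cond X) (h : H) {x y : Pt H} : p.r (h • x) (h • y) ↔ p.r x y :=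
  ⟨fun hr => by simpa using p.r_smul h⁻¹ hr, p.r_smul h⟩

lemma T_fun (p : Cond X) {x y y' : Pt H} (h : p.T x y) (h' : p.T x y') : y = y' := by
  rcases p.r_tri y y' (p.T_supp h).2 (p.T_supp h').2 with h1 | h1 | h1
  · exact (p.r_irrefl x ((p.T_mono h h').2 h1)).elim
  · exact h1
  · exact (p.r_irrefl x ((p.T_mono h' h).2 h1)).elim

lemma T_inj (p : Cond X) {x x' y : Pt H} (h : p.T x y) (h' : p.T x' y) : x = x' := by
  rcases p.r_tri x x' (p.T_supp h).1 (p.T_supp h').1 with h1 | h1 | h1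
  · exact (p.r_irrefl y ((p.T_mono h h').1 h1)).elim
  · exact h1
  · exact (p.r_irrefl y ((p.T_mono h' h).1 h1)).elim

/-- Exchange domain and range. -/
def flip (p : Cond X) : Cond X :=
  { p with
    T := fun x y => p.T y x
    T_supp := fun h => (p.T_supp h).symm
    T_smul := fun hl _ _ h => p.T_smul hl h
    T_mono := fun h h' => (p.T_mono h h').symm
    T_bdd := by
      obtain ⟨M, hM⟩ := p.T_bdd
      exact ⟨M, fun x y h => (hM y x h).symm⟩ }

lemma flip_le_flip {p q : Cond X} (h : p ≤ q) : p.flip ≤ q.flip :=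
  ⟨h.1, h.2.1, h.2.2.1, fun x y hT => h.2.2.2 y x hT⟩

lemma flip_flip (p : Cond X) : p.flip.flip = p := rfl

/-- Add edges to a condition. -/
def addEdges (p : Cond X) (N : Pt H → Pt H → Prop)
    (N_supp : ∀ {x y}, N x y → x.i ∈ p.J ∧ y.i ∈ p.J)
    (N_smul : ∀ {l : H}, l ∈ X.L → ∀ {x y}, N x y → N (l • x) (l • y))
    (N_NN : ∀ {x y x' y'}, N x y → N x' y' →
      (p.r x x' → p.r y y') ∧ (x = x' → y = y'))
    (N_TN : ∀ {x y x' y'}, p.T x y → N x' y' →
      (p.r x x' ∧ p.r y y') ∨ (p.r x' x ∧ p.r y' y))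
    (N_bdd : ∃ M : ℤ, ∀ x y, N x y → |p.lev x| ≤ M ∧ |p.lev y| ≤ M) : Cond X :=
  { p with
    T := fun x y => p.T x y ∨ N x y
    T_supp := fun h => h.elim p.T_supp N_supp
    T_smul := fun hl _ _ h => h.elim (fun h => Or.inl (p.T_smul hl h)) (fun h => Or.inr (N_smul hl h))
    T_mono := by
      rintro x y x' y' (h | h) (h' | h')
      · exact p.T_mono h h'
      · rcases N_TN h h' with ⟨h1, h2⟩ | ⟨h1, h2⟩
        · exact iff_of_true h1 h2
        · exact iff_of_false (p.r_asymm h1) (p.r_asymm h2)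
      · rcases N_TN h' h with ⟨h1, h2⟩ | ⟨h1, h2⟩
        · exact iff_of_false (p.r_asymm h1) (p.r_asymm h2)
        · exact iff_of_true h1 h2
      · refine ⟨(N_NN h h').1, fun hr => ?_⟩
        rcases p.r_tri x x' (N_supp h).1 (N_supp h').1 with h1 | h1 | h1
        · exact h1
        · rw [(N_NN h h').2 h1] at hr
          exact (p.r_irrefl _ hr).elim
        · exact (p.r_asymm hr ((N_NN h' h).1 h1)).elim
    T_bdd := by
      obtain ⟨M, hM⟩ := p.T_bdd
      obtain ⟨M', hM'⟩ := N_bdd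
      refine ⟨max M M', ?_⟩
      rintro x y (h | h)
      · exact ⟨(hM x y h).1.trans (le_max_left _ _), (hM x y h).2.trans (le_max_left _ _)⟩
      · exact ⟨(hM' x y h).1.trans (le_max_right _ _), (hM' x y h).2.trans (le_max_right _ _)⟩ }

/-- Insertion of new orbits into the order. -/
theorem insert_orbits (p : Cond X) (Jn : Finset ℕ) (hJn : ∀ i ∈ Jn, i ∉ p.J) (γ : ℤ)
    (pos : Pt H → Set (Pt H))
    (pos_lower : ∀ y, y.i ∈ Jn → ∀ a b, p.r a b → b ∈ pos y → a ∈ pos y)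
    (pos_supp : ∀ y, y.i ∈ Jn → ∀ a ∈ pos y, a.i ∈ p.J)
    (pos_smul : ∀ (h : H) y, y.i ∈ Jn → ∀ a ∈ pos y, h • a ∈ pos (h • y))
    (kr : Pt H → Pt H → Prop) (kr_irrefl : ∀ y, ¬ kr y y)
    (kr_trans : ∀ x y z, kr x y → kr y z → kr x z)
    (kr_tri : ∀ x y, x.i ∈ Jn → y.i ∈ Jn → kr x y ∨ x = y ∨ kr y x)
    (kr_smul : ∀ (h : H) x y, kr x y → kr (h • x) (h • y)) :
    ∃ q : Cond X, p ≤ q ∧ q.J = p.J ∪ Jn ∧ q.T = p.T ∧ (∀ i ∈ Jn, q.c i = γ) ∧
      (∀ a y, a.i ∈ p.J → y.i ∈ Jn → q.lev a ≤ q.lev y → a ∈ pos y → q.r a y) ∧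
      (∀ a y, a.i ∈ p.J → y.i ∈ Jn → q.lev y ≤ q.lev a → a ∉ pos y → q.r y a) ∧
      (∀ y y', y.i ∈ Jn → y'.i ∈ Jn → q.lev y = q.lev y' → pos y ⊆ pos y' → kr y y' →
        q.r y y') := by
  classical
  let c' : ℕ → ℤ := fun i => if i ∈ p.J then p.c i else γ
  let P : Pt H → Set (Pt H) := fun u => if u.i ∈ p.J then {a | p.r a u} else pos u
  let qr : Pt H → Pt H → Prop := fun u v => u.i ∉ p.J ∧ (v.i ∈ p.J ∨ kr u v)
  let r' : Pt H → Pt H → Prop := fun u v => u.i ∈ p.J ∪ Jn ∧ v.i ∈ p.J ∪ Jn ∧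
    (X.lev c' u < X.lev c' v ∨ (X.lev c' u = X.lev c' v ∧ (P u ⊂ P v ∨ (P u = P v ∧ qr u v))))
  have hlev : ∀ u : Pt H, u.i ∈ p.J → X.lev c' u = X.lev p.c u := by
    intro u hu; simp only [Setup.lev, c', hu, if_true]
  have hPold : ∀ u : Pt H, u.i ∈ p.J → P u = {a | p.r a u} := by
    intro u hu; simp only [P, hu, if_true]
  have hPnew : ∀ u : Pt H, u.i ∈ Jn → P u = pos u := by
    intro u hu; simp only [P, hJn _ hu, if_false]
  have hPlower : ∀ u : Pt H, u.i ∈ p.J ∪ Jn → ∀ a b, p.r a b → b ∈ P u → a ∈ P u := by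
    intro u hu a b hab hb
    rcases Finset.mem_union.1 hu with hu | hu
    · rw [hPold u hu] at hb ⊢; exact p.r_trans hab hb
    · rw [hPnew u hu] at hb ⊢; exact pos_lower u hu a b hab hb
  have hPsupp : ∀ u : Pt H, u.i ∈ p.J ∪ Jn → ∀ a ∈ P u, a.i ∈ p.J := by
    intro u hu a ha
    rcases Finset.mem_union.1 hu with hu | hu
    · rw [hPold u hu] at ha; exact (p.r_supp ha).1
    · rw [hPnew u hu] at ha; exact pos_supp u hu a ha
  have hPsmul : ∀ (h : H) (u : Pt H), u.i ∈ p.J ∪ Jn → ∀ a ∈ P u, h • a ∈ P (h • u) := by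
    intro h u hu a ha
    rcases Finset.mem_union.1 hu with hu | hu
    · rw [hPold u hu] at ha; rw [hPold (h • u) hu]; exact p.r_smul h ha
    · rw [hPnew u hu] at ha; rw [hPnew (h • u) hu]; exact pos_smul h u hu a ha
  have hPsmul' : ∀ (h : H) (u : Pt H), u.i ∈ p.J ∪ Jn → ∀ a, a ∈ P (h • u) ↔ h⁻¹ • a ∈ P u := by
    intro h u hu a
    constructor
    · intro ha
      simpa using hPsmul h⁻¹ (h • u) hu a ha
    · intro ha
      simpa using hPsmul h u hu _ ha
  have hPtot : ∀ u v : Pt H, u.i ∈ p.J ∪ Jn → v.i ∈ p.J ∪ Jn → P u ⊆ P v ∨ P v ⊆ P u := by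
    intro u v hu hv
    by_contra hc
    push Not at hc
    obtain ⟨a, ha, ha'⟩ := Set.not_subset.1 hc.1
    obtain ⟨b, hb, hb'⟩ := Set.not_subset.1 hc.2
    rcases p.r_tri a b (hPsupp u hu a ha) (hPsupp v hv b hb) with h | rfl | h
    · exact ha' (hPlower v hv a b h hb)
    · exact ha' hb
    · exact hb' (hPlower u hu b a h ha)
  have hold : ∀ x y, p.r x y → r' x y := by
    intro x y h
    obtain ⟨hx, hy⟩ := p.r_supp h
    refine ⟨Finset.mem_union_left _ hx, Finset.mem_union_left _ hy, ?_⟩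
    rw [hlev x hx, hlev y hy]
    rcases (p.r_lev h).lt_or_eq with h1 | h1
    · exact Or.inl h1
    · refine Or.inr ⟨h1, Or.inl ?_⟩
      rw [hPold x hx, hPold y hy]
      exact ⟨fun a ha => p.r_trans ha h, fun hc => p.r_irrefl x (hc h)⟩
  have hirr : ∀ x, ¬ r' x x := by
    rintro x ⟨-, -, h | ⟨-, h | ⟨-, h1, h2 | h2⟩⟩⟩
    · exact lt_irrefl _ h
    · exact h.ne rfl
    · exact h1 h2
    · exact kr_irrefl x h2
  have htrans : ∀ {x y z}, r' x y → r' y z → r' x z := by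
    rintro x y z ⟨hx, -, h1⟩ ⟨-, hz, h2⟩
    refine ⟨hx, hz, ?_⟩
    rcases h1 with h1 | ⟨e1, h1⟩
    · rcases h2 with h2 | ⟨e2, -⟩
      · exact Or.inl (h1.trans h2)
      · exact Or.inl (e2 ▸ h1)
    · rcases h2 with h2 | ⟨e2, h2⟩
      · exact Or.inl (e1 ▸ h2)
      · refine Or.inr ⟨e1.trans e2, ?_⟩
        rcases h1 with h1 | ⟨f1, h1⟩
        · rcases h2 with h2 | ⟨f2, -⟩
          · exact Or.inl (h1.trans h2)
          · exact Or.inl (f2 ▸ h1)
        · rcases h2 with h2 | ⟨f2, h2⟩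
          · exact Or.inl (f1 ▸ h2)
          · refine Or.inr ⟨f1.trans f2, h1.1, ?_⟩
            rcases h2.2 with h3 | h3
            · exact Or.inl h3
            · rcases h1.2 with h4 | h4
              · exact (h2.1 h4).elim
              · exact Or.inr (kr_trans _ _ _ h4 h3)
  have htri : ∀ x y : Pt H, x.i ∈ p.J ∪ Jn → y.i ∈ p.J ∪ Jn → r' x y ∨ x = y ∨ r' y x := by
    intro x y hx hy
    rcases lt_trichotomy (X.lev c' x) (X.lev c' y) with h | h | h
    · exact Or.inl ⟨hx, hy, Or.inl h⟩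
    · by_cases hP : P x = P y
      · rcases Finset.mem_union.1 hx with hx' | hx' <;> rcases Finset.mem_union.1 hy with hy' | hy'
        · rcases p.r_tri x y hx' hy' with h1 | h1 | h1
          · exact Or.inl (hold _ _ h1)
          · exact Or.inr (Or.inl h1)
          · exact Or.inr (Or.inr (hold _ _ h1))
        · exact Or.inr (Or.inr ⟨hy, hx, Or.inr ⟨h.symm, Or.inr ⟨hP.symm, hJn _ hy', Or.inl hx'⟩⟩⟩)
        · exact Or.inl ⟨hx, hy, Or.inr ⟨h, Or.inr ⟨hP, hJn _ hx', Or.inl hy'⟩⟩⟩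
        · rcases kr_tri x y hx' hy' with h1 | h1 | h1
          · exact Or.inl ⟨hx, hy, Or.inr ⟨h, Or.inr ⟨hP, hJn _ hx', Or.inr h1⟩⟩⟩
          · exact Or.inr (Or.inl h1)
          · exact Or.inr (Or.inr
              ⟨hy, hx, Or.inr ⟨h.symm, Or.inr ⟨hP.symm, hJn _ hy', Or.inr h1⟩⟩⟩)
      · rcases hPtot x y hx hy with h1 | h1
        · exact Or.inl ⟨hx, hy, Or.inr ⟨h, Or.inl (h1.ssubset_of_ne hP)⟩⟩
        · exact Or.inr (Or.inr ⟨hy, hx, Or.inr ⟨h.symm, Or.inl (h1.ssubset_of_ne (Ne.symm hP))⟩⟩)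
    · exact Or.inr (Or.inr ⟨hy, hx, Or.inl h⟩)
  have hsmul : ∀ (h : H) {x y}, r' x y → r' (h • x) (h • y) := by
    rintro h x y ⟨hx, hy, h1⟩
    refine ⟨hx, hy, ?_⟩
    rw [X.lev_smul, X.lev_smul]
    rcases h1 with h1 | ⟨e1, h1⟩
    · exact Or.inl (by linarith)
    · refine Or.inr ⟨by rw [e1], ?_⟩
      rcases h1 with h1 | ⟨f1, h1⟩
      · left
        constructor
        · intro a ha
          rw [hPsmul' h x hx] at ha
          rw [hPsmul' h y hy]
          exact h1.1 ha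
        · intro hc
          apply h1.2
          intro a ha
          have := hc (hPsmul h y hy a ha)
          rw [hPsmul' h x hx] at this
          simpa using this
      · right
        refine ⟨?_, h1.1, h1.2.imp id (kr_smul h x y)⟩
        ext a
        rw [hPsmul' h x hx, hPsmul' h y hy, f1]
  have hback : ∀ x y : Pt H, x.i ∈ p.J → y.i ∈ p.J → r' x y → p.r x y := by
    intro x y hx hy h
    rcases p.r_tri x y hx hy with h1 | rfl | h1
    · exact h1
    · exact (hirr _ h).elim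
    · exact (hirr _ (htrans h (hold _ _ h1))).elim
  let q : Cond X :=
    { J := p.J ∪ Jn
      r := r'
      c := c'
      T := p.T
      r_supp := fun h => ⟨h.1, h.2.1⟩
      r_irrefl := hirr
      r_trans := htrans
      r_tri := htri
      r_smul := hsmul
      r_lev := fun h => h.2.2.elim le_of_lt (fun h => h.1.le)
      T_supp := fun h => ⟨Finset.mem_union_left _ (p.T_supp h).1,
        Finset.mem_union_left _ (p.T_supp h).2⟩
      T_smul := p.T_smul
      T_mono := by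
        intro x y x' y' h h'
        constructor
        · intro hr
          exact hold _ _ ((p.T_mono h h').1 (hback _ _ (p.T_supp h).1 (p.T_supp h').1 hr))
        · intro hr
          exact hold _ _ ((p.T_mono h h').2 (hback _ _ (p.T_supp h).2 (p.T_supp h').2 hr))
      T_bdd := by
        obtain ⟨M, hM⟩ := p.T_bdd
        refine ⟨M, fun x y h => ?_⟩
        rw [hlev x (p.T_supp h).1, hlev y (p.T_supp h).2]
        exact hM x y h }
  refine ⟨q, ⟨Finset.subset_union_left, hold, fun i hi => by simp [q, c', hi], fun _ _ h => h⟩,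
    rfl, rfl, fun i hi => by simp [q, c', hJn i hi], ?_, ?_, ?_⟩
  · intro a y ha hy hl hp
    refine ⟨Finset.mem_union_left _ ha, Finset.mem_union_right _ hy, ?_⟩
    rcases hl.lt_or_eq with h1 | h1
    · exact Or.inl h1
    · refine Or.inr ⟨h1, Or.inl ?_⟩
      rw [hPold a ha, hPnew y hy]
      exact ⟨fun b hb => pos_lower y hy b a hb hp, fun hc => p.r_irrefl a (hc hp)⟩
  · intro a y ha hy hl hp
    refine ⟨Finset.mem_union_right _ hy, Finset.mem_union_left _ ha, ?_⟩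
    rcases hl.lt_or_eq with h1 | h1
    · exact Or.inl h1
    · refine Or.inr ⟨h1, ?_⟩
      have hsub : P y ⊆ P a := by
        rw [hPold a ha, hPnew y hy]
        intro b hb
        rcases p.r_tri b a (pos_supp y hy b hb) ha with h | rfl | h
        · exact h
        · exact (hp hb).elim
        · exact (hp (pos_lower y hy a b h hb)).elim
      by_cases hP : P y = P a
      · exact Or.inr ⟨hP, hJn _ hy, Or.inl ha⟩
      · exact Or.inl (hsub.ssubset_of_ne hP)
  · intro y y' hy hy' hl hp hk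
    refine ⟨Finset.mem_union_right _ hy, Finset.mem_union_right _ hy', Or.inr ⟨hl, ?_⟩⟩
    rw [hPnew y hy, hPnew y' hy']
    by_cases hP : pos y = pos y'
    · exact Or.inr ⟨hP, hJn _ hy, Or.inr hk⟩
    · exact Or.inl (hp.ssubset_of_ne hP)

end Cond

end Pool.Agent.MP_781439_al
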