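import Pool.Agent.MP_781439_al.Basic

/-!
Parabolic subgroups of right-angled Artin groups are left relatively convex: the coset space has
an invariant linear order.  The proof uses a Magnus-type representation on the free abelian group
spanned by traces, in which squares of generators act as zero.
-/

namespace Pool.Agent.MP_781439_al

variable {V : Type} (Γ : SimpleGraph V)

/-- Swap two neighbouring commuting letters. -/
def Step (l l' : List V) : Prop :=
  ∃ l1 l2 a b, Γ.Adj a b ∧ l = l1 ++ a :: b :: l2 ∧ l' = l1 ++ b :: a :: l2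

/-- Traces. -/
def Tr : Type := Quot (Step Γ)

namespace Tr

variable {Γ}

/-- The trace of a word. -/
def mk (l : List V) : Tr Γ := Quot.mk _ l

/-- Left multiplication by a letter. -/
def cons (x : V) : Tr Γ → Tr Γ :=
  Quot.map (fun l => x :: l) (by
    rintro l l' ⟨l1, l2, a, b, h, rfl, rfl⟩
    exact ⟨x :: l1, l2, a, b, h, rfl, rfl⟩)

/-- The length. -/
def deg : Tr Γ → ℕ :=
  Quot.lift List.length (by
    rintro l l' ⟨l1, l2, a, b, h, rfl, rfl⟩
    simp)

lemma cons_mk (x : V) (l : List V) : cons x (mk l : Tr Γ) = mk (x :: l) := rfl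

lemma deg_mk (l : List V) : deg (mk l : Tr Γ) = l.length := rfl

lemma deg_cons (x : V) (m : Tr Γ) : deg (cons x m) = deg m + 1 := by
  induction m using Quot.ind
  rfl

lemma cons_comm {x y : V} (h : Γ.Adj x y) (m : Tr Γ) : cons x (cons y m) = cons y (cons x m) := by
  induction m using Quot.ind with
  | mk l => exact Quot.sound ⟨[], l, x, y, h, rfl, rfl⟩

noncomputable instance : LinearOrder (Tr Γ) :=
  LinearOrder.lift' (fun m : Tr Γ => toLex (deg m, embeddingToCardinal m))
    (fun _ _ h => embeddingToCardinal.injective (congrArg (fun p => (ofLex p).2) h))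

lemma lt_of_deg_lt {m m' : Tr Γ} (h : deg m < deg m') : m < m' :=
  show toLex (deg m, embeddingToCardinal m) < toLex (deg m', embeddingToCardinal m') from
    Prod.Lex.toLex_lt_toLex.2 (Or.inl h)

lemma deg_le_of_le {m m' : Tr Γ} (h : m ≤ m') : deg m ≤ deg m' := by
  by_contra hc
  exact absurd (lt_of_deg_lt (not_le.1 hc)) (not_lt.2 h)

end Tr

variable {Γ} (S : Set V)

/-- A word containing a square or ending in a letter of `S`. -/
def Bad (l : List V) : Prop :=
  (∃ l1 x l2, l = l1 ++ x :: x :: l2) ∨ ∃ l1 d, d ∈ S ∧ l = l1 ++ [d]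

/-- Admissible traces. -/
def Adm (m : Tr Γ) : Prop := ∀ l, Tr.mk l = m → ¬ Bad S l

variable {S}

lemma Adm.of_cons {x : V} {m : Tr Γ} (h : Adm S (Tr.cons x m)) : Adm S m := by
  rintro l rfl hb
  refine h (x :: l) rfl ?_
  rcases hb with ⟨l1, y, l2, rfl⟩ | ⟨l1, d, hd, rfl⟩
  · exact Or.inl ⟨x :: l1, y, l2, rfl⟩
  · exact Or.inr ⟨x :: l1, d, hd, rfl⟩

lemma not_adm_cons_cons (x : V) (m : Tr Γ) : ¬ Adm S (Tr.cons x (Tr.cons x m)) := by
  induction m using Quot.ind with
  | mk l => exact fun h => h (x :: x :: l) rfl (Or.inl ⟨[], x, l, rfl⟩)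

lemma not_adm_single {d : V} (hd : d ∈ S) : ¬ Adm S (Tr.cons d (Tr.mk [] : Tr Γ)) :=
  fun h => h [d] rfl (Or.inr ⟨[], d, hd, rfl⟩)

lemma adm_nil : Adm S (Tr.mk [] : Tr Γ) := by
  intro l hl hb
  have h0 : l.length = 0 := by
    have := congrArg Tr.deg hl
    simpa [Tr.deg_mk] using this
  rcases hb with ⟨l1, y, l2, rfl⟩ | ⟨l1, d, hd, rfl⟩ <;> simp at h0

open Classical in
/-- The basis vector of an admissible trace, zero otherwise. -/
noncomputable def bas (S : Set V) (m : Tr Γ) : Tr Γ →₀ ℤ :=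
  if Adm S m then Finsupp.single m 1 else 0

/-- The nilpotent operator attached to a letter. -/
noncomputable def lam (S : Set V) (x : V) : Module.End ℤ (Tr Γ →₀ ℤ) :=
  Finsupp.linearCombination ℤ (fun m => bas S (Tr.cons x m))

lemma lam_single (x : V) (m : Tr Γ) (c : ℤ) :
    lam S x (Finsupp.single m c) = c • bas S (Tr.cons x m) := by
  simp [lam]

lemma lam_bas (x : V) (m : Tr Γ) : lam S x (bas S m) = bas S (Tr.cons x m) := by
  by_cases h : Adm S m
  · conv_lhs => rw [bas, if_pos h, lam_single, one_smul]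
  · have h2 : ¬ Adm S (Tr.cons x m) := fun h' => h h'.of_cons
    simp [bas, h, h2]

lemma lam_sq (x : V) : (lam S x * lam S x : Module.End ℤ (Tr Γ →₀ ℤ)) = 0 := by
  apply Finsupp.lhom_ext
  intro m c
  rw [Module.End.mul_apply, lam_single, map_smul, lam_bas, bas, if_neg (not_adm_cons_cons x m)]
  simp

lemma lam_comm {x y : V} (h : Γ.Adj x y) :
    Commute (lam S x : Module.End ℤ (Tr Γ →₀ ℤ)) (lam S y) := by
  apply Finsupp.lhom_ext
  intro m c
  rw [Module.End.mul_apply, Module.End.mul_apply, lam_single, lam_single, map_smul, map_smul,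
    lam_bas, lam_bas, Tr.cons_comm h]

lemma bas_apply_of_ne {m j : Tr Γ} (h : m ≠ j) : bas S m j = 0 := by
  unfold bas
  split_ifs
  · exact Finsupp.single_eq_of_ne h.symm
  · rfl

lemma lam_apply_eq_zero (x : V) (d : Tr Γ →₀ ℤ) (j : Tr Γ)
    (h : ∀ m, Tr.deg m + 1 = Tr.deg j → d m = 0) : lam S x d j = 0 := by
  rw [lam, Finsupp.linearCombination_apply, Finsupp.sum, Finsupp.finsetSum_apply]
  refine Finset.sum_eq_zero (fun m hm => ?_)
  have h1 : Tr.cons x m ≠ j := by
    rintro rfl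
    exact Finsupp.mem_support_iff.1 hm (h m (Tr.deg_cons x m).symm)
  simp [bas_apply_of_ne h1]

/-- The unit `1 + λ_x`. -/
noncomputable def lamUnit (S : Set V) (x : V) : (Module.End ℤ (Tr Γ →₀ ℤ))ˣ where
  val := 1 + lam S x
  inv := 1 - lam S x
  val_inv := by
    have := lam_sq (Γ := Γ) (S := S) x
    rw [add_mul, mul_sub, mul_sub, this]; simp
  inv_val := by
    have := lam_sq (Γ := Γ) (S := S) x
    rw [sub_mul, mul_add, mul_add, this]; simp

lemma lamUnit_zpow (x : V) (n : ℤ) :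
    ((lamUnit S x ^ n : (Module.End ℤ (Tr Γ →₀ ℤ))ˣ) : Module.End ℤ (Tr Γ →₀ ℤ)) =
      1 + n • lam S x := by
  have hsq := lam_sq (Γ := Γ) (S := S) x
  induction n using Int.induction_on with
  | zero => simp
  | succ n ih =>
    rw [zpow_add_one, Units.val_mul, ih]
    change (1 + (n : ℤ) • lam S x) * (1 + lam S x) = _
    rw [add_mul, mul_add, mul_add, smul_mul_assoc, smul_mul_assoc, hsq, add_smul]
    simp; abel
  | pred n ih =>
    rw [zpow_sub_one, Units.val_mul, ih]
    change (1 + (-(n : ℤ)) • lam S x) * (1 - lam S x) = _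
    rw [add_mul, mul_sub, mul_sub, smul_mul_assoc, smul_mul_assoc, hsq, sub_smul]
    simp; abel

/-- The representation. -/
noncomputable def rep (Γ : SimpleGraph V) (S : Set V) : RAAG Γ →* (Module.End ℤ (Tr Γ →₀ ℤ))ˣ :=
  lift (lamUnit S) (by
    intro u v huv
    apply Units.ext
    change (1 + lam S u) * (1 + lam S v) = (1 + lam S v) * (1 + lam S u)
    exact ((Commute.one_left _).add_left ((Commute.one_right _).add_right (lam_comm huv))).eq)

/-- The action on vectors. -/
noncomputable def act (S : Set V) (g : RAAG Γ) (w : Tr Γ →₀ ℤ) : Tr Γ →₀ ℤ :=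
  (rep Γ S g : Module.End ℤ (Tr Γ →₀ ℤ)) w

lemma act_mul (g h : RAAG Γ) (w : Tr Γ →₀ ℤ) : act S (g * h) w = act S g (act S h w) := by
  simp [act]

lemma act_one (w : Tr Γ →₀ ℤ) : act S (1 : RAAG Γ) w = w := by simp [act]

lemma act_zpow (x : V) (n : ℤ) (w : Tr Γ →₀ ℤ) :
    act S (gen Γ x ^ n) w = w + n • lam S x w := by
  rw [act, map_zpow, rep, lift_gen, lamUnit_zpow]
  simp

lemma act_gen (x : V) (w : Tr Γ →₀ ℤ) : act S (gen Γ x) w = w + lam S x w := by
  have := act_zpow (S := S) x 1 w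
  simpa using this

lemma act_strictMono (g : RAAG Γ) :
    StrictMono (fun w : Lex (Tr Γ →₀ ℤ) => toLex (act S g (ofLex w))) := by
  refine raag_induction
    (P := fun g => StrictMono (fun w : Lex (Tr Γ →₀ ℤ) => toLex (act S g (ofLex w)))) ?_ ?_ ?_ ?_ g
  · simp only [act_one]; exact strictMono_id
  · intro x a b hab
    obtain ⟨i, hi1, hi2⟩ := Finsupp.Lex.lt_iff.1 hab
    have key : ∀ j, j ≤ i → lam S x (ofLex a) j = lam S x (ofLex b) j := by
      intro j hj
      have := lam_apply_eq_zero (S := S) x (ofLex a - ofLex b) j (by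
        intro m hm
        have h1 : m < i := Tr.lt_of_deg_lt (by have := Tr.deg_le_of_le hj; omega)
        simp [hi1 m h1])
      rw [map_sub, Finsupp.sub_apply] at this
      linarith
    refine Finsupp.Lex.lt_iff.2 ⟨i, fun j hj => ?_, ?_⟩
    · simp only [act_gen, ofLex_toLex, Finsupp.add_apply]
      rw [hi1 j hj, key j hj.le]
    · simp only [act_gen, ofLex_toLex, Finsupp.add_apply]
      rw [key i le_rfl]
      linarith
  · intro a b ha hb
    simp only [act_mul]
    exact ha.comp hb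
  · intro g hg a b hab
    by_contra hc
    have h1 := hg.monotone (not_lt.1 hc)
    simp only [ofLex_toLex, ← act_mul, mul_inv_cancel, act_one] at h1
    exact absurd hab (not_lt.2 h1)

/-- The product of a list of syllables. -/
def prodS (Γ : SimpleGraph V) (s : List (V × ℤ)) : RAAG Γ := (s.map (fun p => gen Γ p.1 ^ p.2)).prod

lemma prodS_nil : prodS Γ [] = 1 := rfl

lemma prodS_cons (p : V × ℤ) (s : List (V × ℤ)) :
    prodS Γ (p :: s) = gen Γ p.1 ^ p.2 * prodS Γ s := by simp [prodS]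

lemma prodS_append (s t : List (V × ℤ)) : prodS Γ (s ++ t) = prodS Γ s * prodS Γ t := by
  simp [prodS]

lemma exists_prodS (g : RAAG Γ) : ∃ s, prodS Γ s = g := by
  refine raag_induction (P := fun g => ∃ s, prodS Γ s = g) ⟨[], rfl⟩ ?_ ?_ ?_ g
  · intro u; exact ⟨[(u, 1)], by simp [prodS]⟩
  · rintro a b ⟨s, rfl⟩ ⟨t, rfl⟩; exact ⟨s ++ t, prodS_append s t⟩
  · rintro a ⟨s, rfl⟩
    induction s with
    | nil => exact ⟨[], by simp [prodS]⟩
    | cons p s ih =>
      obtain ⟨t, ht⟩ := ih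
      refine ⟨t ++ [(p.1, -p.2)], ?_⟩
      rw [prodS_append, ht, prodS_cons, prodS_cons, prodS_nil]
      simp

lemma act_prodS (s : List (V × ℤ)) : ∃ low : Tr Γ →₀ ℤ, (∀ m, s.length ≤ Tr.deg m → low m = 0) ∧
    act S (prodS Γ s) (bas S (Tr.mk [])) =
      (s.map Prod.snd).prod • bas S (Tr.mk (s.map Prod.fst)) + low := by
  induction s with
  | nil => exact ⟨0, fun _ _ => rfl, by simp [prodS_nil, act_one]⟩
  | cons p s ih =>
    obtain ⟨low, hlow, hs⟩ := ih
    refine ⟨(s.map Prod.snd).prod • bas S (Tr.mk (s.map Prod.fst)) + low + p.2 • lam S p.1 low,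
      ?_, ?_⟩
    · intro m hm
      simp only [List.length_cons] at hm
      have h1 : (Tr.mk (s.map Prod.fst) : Tr Γ) ≠ m := by
        rintro rfl
        rw [Tr.deg_mk, List.length_map] at hm
        omega
      have h2 : low m = 0 := hlow m (by omega)
      have h3 : lam S p.1 low m = 0 := lam_apply_eq_zero _ _ _ (fun m' hm' => hlow m' (by omega))
      simp [bas_apply_of_ne h1, h2, h3]
    · rw [prodS_cons, act_mul, hs, act_zpow, map_add, map_smul, lam_bas, Tr.cons_mk]
      simp only [List.map_cons, List.prod_cons, smul_add, mul_smul]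
      abel

lemma lift_step {l l' : List V} (h : Relation.EqvGen (Step Γ) l l') :
    (∀ s : List (V × ℤ), s.map Prod.fst = l → ∃ s' : List (V × ℤ), s'.map Prod.fst = l' ∧
      prodS Γ s' = prodS Γ s) ∧
    (∀ s : List (V × ℤ), s.map Prod.fst = l' → ∃ s' : List (V × ℤ), s'.map Prod.fst = l ∧
      prodS Γ s' = prodS Γ s) := by
  have one : ∀ l1 l2 a b, Γ.Adj a b → ∀ s : List (V × ℤ), s.map Prod.fst = l1 ++ a :: b :: l2 →
      ∃ s' : List (V × ℤ), s'.map Prod.fst = l1 ++ b :: a :: l2 ∧ prodS Γ s' = prodS Γ s := by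
    intro l1 l2 a b hab s hs
    obtain ⟨s1, t, rfl, h1, h2⟩ := List.map_eq_append_iff.1 hs
    obtain ⟨p, t', rfl, rfl, h3⟩ := List.map_eq_cons_iff.1 h2
    obtain ⟨q, s2, rfl, rfl, h4⟩ := List.map_eq_cons_iff.1 h3
    refine ⟨s1 ++ q :: p :: s2, by simp [h1, h4], ?_⟩
    simp only [prodS_append, prodS_cons]
    rw [← mul_assoc (gen Γ q.1 ^ q.2), ← mul_assoc (gen Γ p.1 ^ p.2),
      ((gen_comm hab).zpow_zpow p.2 q.2).eq]
  induction h with
  | rel x y hxy =>
    obtain ⟨l1, l2, a, b, hab, rfl, rfl⟩ := hxy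
    exact ⟨one l1 l2 a b hab, one l1 l2 b a hab.symm⟩
  | refl x => exact ⟨fun s hs => ⟨s, hs, rfl⟩, fun s hs => ⟨s, hs, rfl⟩⟩
  | symm x y _ ih => exact ⟨ih.2, ih.1⟩
  | trans x y z _ _ ih1 ih2 =>
    constructor
    · intro s hs
      obtain ⟨s1, h1, e1⟩ := ih1.1 s hs
      obtain ⟨s2, h2, e2⟩ := ih2.1 s1 h1
      exact ⟨s2, h2, e2.trans e1⟩
    · intro s hs
      obtain ⟨s1, h1, e1⟩ := ih2.2 s hs
      obtain ⟨s2, h2, e2⟩ := ih1.2 s1 h1
      exact ⟨s2, h2, e2.trans e1⟩

lemma act_base_of_mem {g : RAAG Γ} (hg : g ∈ par Γ S) :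
    act S g (bas S (Tr.mk [])) = bas S (Tr.mk []) := by
  refine par_induction (P := fun g => act S g (bas S (Tr.mk [])) = bas S (Tr.mk [])) ?_ ?_ ?_ ?_ hg
  · exact act_one _
  · intro u hu
    rw [act_gen, lam_bas]
    have : (bas S (Tr.cons u (Tr.mk [])) : Tr Γ →₀ ℤ) = 0 := if_neg (not_adm_single hu)
    rw [this, add_zero]
  · intro a b ha hb; rw [act_mul, hb, ha]
  · intro a ha
    conv_lhs => rw [← ha]
    rw [← act_mul, inv_mul_cancel, act_one]

lemma mem_of_act_base {g : RAAG Γ} (hg : act S g (bas S (Tr.mk [])) = bas S (Tr.mk [])) :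
    g ∈ par Γ S := by
  classical
  have hex : ∃ n, ∃ s : List (V × ℤ), s.length = n ∧ g⁻¹ * prodS Γ s ∈ par Γ S := by
    obtain ⟨s, hs⟩ := exists_prodS g
    exact ⟨s.length, s, rfl, by rw [hs, inv_mul_cancel]; exact one_mem _⟩
  obtain ⟨s, hlen, hs⟩ := Nat.find_spec hex
  have hmin : ∀ t : List (V × ℤ), g⁻¹ * prodS Γ t ∈ par Γ S → s.length ≤ t.length := by
    intro t ht
    rw [hlen]
    exact Nat.find_min' hex ⟨t, rfl, ht⟩
  have hadm : Adm S (Tr.mk (s.map Prod.fst) : Tr Γ) := by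
    intro l hl hb
    obtain ⟨s', hs', he⟩ := (lift_step (Quot.eqvGen_exact hl)).2 s rfl
    have hl' : s'.length = s.length := by
      have := congrArg Tr.deg hl
      rw [Tr.deg_mk, Tr.deg_mk, ← hs'] at this
      simpa using this
    rcases hb with ⟨l1, x, l2, rfl⟩ | ⟨l1, d, hd, rfl⟩
    · obtain ⟨s1, t, rfl, h1, h2⟩ := List.map_eq_append_iff.1 hs'
      obtain ⟨p, t', rfl, rfl, h3⟩ := List.map_eq_cons_iff.1 h2
      obtain ⟨q, s2, rfl, hq, h4⟩ := List.map_eq_cons_iff.1 h3
      have := hmin (s1 ++ (p.1, p.2 + q.2) :: s2) (by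
        rw [← he] at hs
        simp only [prodS_append, prodS_cons, hq] at hs ⊢
        rwa [zpow_add, mul_assoc (gen Γ p.1 ^ p.2)])
      simp at this hl'
      omega
    · obtain ⟨s1, t, rfl, h1, h2⟩ := List.map_eq_append_iff.1 hs'
      obtain ⟨p, t', rfl, rfl, h3⟩ := List.map_eq_cons_iff.1 h2
      have ht' : t' = [] := by simpa using h3
      subst ht'
      have := hmin s1 (by
        rw [← he, prodS_append, prodS_cons, prodS_nil, mul_one, ← mul_assoc] at hs
        exact (Subgroup.mul_mem_cancel_right _ (zpow_mem (gen_mem_par hd) _)).1 hs)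
      simp at this hl'
      omega
  have hne : (s.map Prod.snd).prod ≠ 0 := by
    intro h0
    rw [List.prod_eq_zero_iff] at h0
    obtain ⟨p, hp, hp0⟩ := List.mem_map.1 h0
    obtain ⟨s1, s2, rfl⟩ := List.append_of_mem hp
    have := hmin (s1 ++ s2) (by
      simpa only [prodS_append, prodS_cons, hp0, zpow_zero, one_mul] using hs)
    simp at this
  obtain ⟨low, hlow, hact⟩ := act_prodS (Γ := Γ) (S := S) s
  have h1 : act S (prodS Γ s) (bas S (Tr.mk [])) = bas S (Tr.mk []) := by
    have : prodS Γ s = g * (g⁻¹ * prodS Γ s) := by group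
    rw [this, act_mul, act_base_of_mem hs, hg]
  rw [h1] at hact
  have h2 := congrArg (fun w : Tr Γ →₀ ℤ => w (Tr.mk (s.map Prod.fst))) hact
  have h3 : low (Tr.mk (s.map Prod.fst)) = 0 := hlow _ (by simp [Tr.deg_mk])
  have h4 : (bas S (Tr.mk (s.map Prod.fst)) : Tr Γ →₀ ℤ) (Tr.mk (s.map Prod.fst)) = 1 := by
    rw [bas, if_pos hadm, Finsupp.single_eq_same]
  simp only [Finsupp.add_apply, Finsupp.smul_apply, h3, h4, smul_eq_mul, mul_one, add_zero] at h2
  have h5 : (Tr.mk [] : Tr Γ) = Tr.mk (s.map Prod.fst) := by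
    by_contra hc
    rw [bas_apply_of_ne hc] at h2
    exact hne h2.symm
  have h6 : s = [] := by
    have := congrArg Tr.deg h5
    simpa [Tr.deg_mk, eq_comm] using this
  rw [h6, prodS_nil, mul_one] at hs
  simpa using hs

/-- The left cosets of a parabolic subgroup carry an invariant linear order. -/
theorem exists_coset_order (Γ : SimpleGraph V) (S : Set V) :
    ∃ (O : Type) (_ : LinearOrder O) (ω : RAAG Γ → O),
      (∀ h g g', ω g < ω g' → ω (h * g) < ω (h * g')) ∧
      ∀ g g', ω g = ω g' ↔ g⁻¹ * g' ∈ par Γ S := by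
  refine ⟨Lex (Tr Γ →₀ ℤ), inferInstance, fun g => toLex (act S g (bas S (Tr.mk []))), ?_, ?_⟩
  · intro h g g' hlt
    have := act_strictMono (S := S) h hlt
    simpa only [ofLex_toLex, act_mul] using this
  · intro g g'
    constructor
    · intro h
      apply mem_of_act_base
      have h1 : act S g (bas S (Tr.mk [])) = act S g' (bas S (Tr.mk [])) := h
      rw [act_mul, ← h1, ← act_mul, inv_mul_cancel, act_one]
    · intro h
      have : g' = g * (g⁻¹ * g') := by group
      change toLex _ = toLex _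
      rw [this, act_mul, act_base_of_mem h]

end Pool.Agent.MP_781439_al
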