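import Mathlib

/-!
Right-angled Artin groups and sharply `k`-transitive order-preserving actions on the rationals.
-/

namespace Pool.Agent.MP_781439_al

/-- The defining relators `u v u⁻¹ v⁻¹`, one for every edge `{u, v}` of the graph. -/
def raagRels {V : Type} (Γ : SimpleGraph V) : Set (FreeGroup V) :=
  {r | ∃ u v : V, Γ.Adj u v ∧
    r = FreeGroup.of u * FreeGroup.of v * (FreeGroup.of u)⁻¹ * (FreeGroup.of v)⁻¹}

/-- The right-angled Artin group `A_Γ = ⟨V | uv = vu for every edge {u, v}⟩`. -/
abbrev RAAG {V : Type} (Γ : SimpleGraph V) : Type := PresentedGroup (raagRels Γ)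

/-- `G` is isomorphic to a direct product of two infinite groups. -/
def IsProductOfInfinite (G : Type) [Group G] : Prop :=
  ∃ (H₁ H₂ : Type) (_ : Group H₁) (_ : Group H₂),
    Infinite H₁ ∧ Infinite H₂ ∧ Nonempty (G ≃* H₁ × H₂)

/-- `G` has an action on `ℚ` by order-preserving bijections such that for any two `k`-element
subsets `A`, `B` exactly one group element maps `A` onto `B`. -/
def HasSharplyTransitiveAction (G : Type) [Group G] (k : ℕ) : Prop :=
  ∃ θ : G →* Equiv.Perm ℚ, (∀ g : G, StrictMono (θ g)) ∧
    ∀ A B : Finset ℚ, A.card = k → B.card = k → ∃! g : G, A.image (θ g) = B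

end Pool.Agent.MP_781439_al
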