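import Pool.Agent.MP_781439_al.Cond

/-!
Potentials (which witness that no nontrivial element fixes `k` points) and extension of the
partial map into fresh orbits.
-/

namespace Pool.Agent.MP_781439_al

variable {H : Type} [Group H] {X : Setup H} {G : Type} [Group G] {k : ℕ}

/-- Attach free orbits to an equivariant map. -/
theorem attach {M W : Type} [MulAction H M] [MulAction G W] (ι : H →* G) (σ : G) (L : Subgroup H)
    (hσ : ∀ l ∈ L, Commute σ (ι l)) (ψ : M → W) (hψ : ∀ (h : H) m, ψ (h • m) = ι h • ψ m)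
    (T2 : M → M → Prop) (hb : ∀ a b (h : H) b', T2 a b → T2 (h • a) b' → h ∈ L ∧ b' = h • b) :
    ∃ ψ' : M → W, (∀ (h : H) m, ψ' (h • m) = ι h • ψ' m) ∧ (∀ a b, T2 a b → ψ' a = σ • ψ b) ∧
      ∀ m, (∀ (h : H) b, ¬ T2 (h • m) b) → ψ' m = ψ m := by
  classical
  let ψ' : M → W := fun m =>
    if hm : ∃ p : H × M, T2 (p.1 • m) p.2 then (ι hm.choose.1)⁻¹ • σ • ψ hm.choose.2 else ψ m
  have key : ∀ m (h : H) b, T2 (h • m) b → ψ' m = (ι h)⁻¹ • σ • ψ b := by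
    intro m h b hT
    have hm : ∃ p : H × M, T2 (p.1 • m) p.2 := ⟨(h, b), hT⟩
    have h0 := hm.choose_spec
    simp only [ψ', dif_pos hm]
    generalize hm.choose = p at h0 ⊢
    obtain ⟨h1, h2⟩ := hb (p.1 • m) p.2 (h * p.1⁻¹) b h0 (by simpa [mul_smul] using hT)
    rw [h2, hψ, ← mul_smul σ, (hσ _ h1).eq]
    simp [mul_smul]
  have key2 : ∀ m, (∀ (h : H) b, ¬ T2 (h • m) b) → ψ' m = ψ m := by
    intro m hm
    have : ¬ ∃ p : H × M, T2 (p.1 • m) p.2 := fun ⟨p, hp⟩ => hm p.1 p.2 hp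
    simp only [ψ', dif_neg this]
  refine ⟨ψ', fun g m => ?_, fun a b hT => ?_, key2⟩
  · by_cases hm : ∃ (h : H) (b : M), T2 (h • m) b
    · obtain ⟨h, b, hT⟩ := hm
      rw [key m h b hT, key (g • m) (h * g⁻¹) b (by simpa [mul_smul] using hT)]
      simp [mul_smul]
    · push Not at hm
      rw [key2 m hm, key2 (g • m) (fun h b => by rw [← mul_smul]; exact hm _ b), hψ]
  · have := key a 1 b (by simpa using hT)
    simpa using this

namespace Cond

/-- Increasing tuples in the support. -/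
def Inc (p : Cond X) (m : Fin k → Pt H) : Prop :=
  (∀ i, (m i).i ∈ p.J) ∧ ∀ i j, i < j → p.r (m i) (m j)

/-- The partial map on increasing tuples. -/
def TT (p : Cond X) (m m' : Fin k → Pt H) : Prop := p.Inc m ∧ ∀ i, p.T (m i) (m' i)

/-- A potential: an equivariant map from tuples to a `G`-set. -/
def Pot (p : Cond X) (ι : H →* G) (τ : G) {W : Type} [MulAction G W]
    (ψ : (Fin k → Pt H) → W) : Prop :=
  (∀ (h : H) m, ψ (h • m) = ι h • ψ m) ∧ ∀ m m', p.TT m m' → ψ m' = τ • ψ m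

lemma Inc.mono {p q : Cond X} (h : p ≤ q) {m : Fin k → Pt H} (hm : p.Inc m) : q.Inc m :=
  ⟨fun i => le_J h (hm.1 i), fun i j hij => le_r h (hm.2 i j hij)⟩

lemma Inc.of_le {p q : Cond X} (h : p ≤ q) {m : Fin k → Pt H} (hm : q.Inc m)
    (hJ : ∀ i, (m i).i ∈ p.J) : p.Inc m :=
  ⟨hJ, fun i j hij => r_of_le h (hJ i) (hJ j) (hm.2 i j hij)⟩

lemma Inc.smul {p : Cond X} {m : Fin k → Pt H} (hm : p.Inc m) (h : H) : p.Inc (h • m) :=
  ⟨hm.1, fun i j hij => p.r_smul h (hm.2 i j hij)⟩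

lemma Inc.lt_iff {p : Cond X} {m : Fin k → Pt H} (hm : p.Inc m) {i j : Fin k} :
    p.r (m i) (m j) ↔ i < j := by
  refine ⟨fun h => ?_, hm.2 i j⟩
  rcases lt_trichotomy i j with h1 | rfl | h1
  · exact h1
  · exact (p.r_irrefl _ h).elim
  · exact (p.r_asymm h (hm.2 _ _ h1)).elim

lemma Inc.inj {p : Cond X} {m : Fin k → Pt H} (hm : p.Inc m) {i j : Fin k} (h : m i = m j) :
    i = j := by
  rcases lt_trichotomy i j with h1 | h1 | h1
  · have := hm.2 _ _ h1; rw [h] at this; exact (p.r_irrefl _ this).elim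
  · exact h1
  · have := hm.2 _ _ h1; rw [h] at this; exact (p.r_irrefl _ this).elim

lemma TT.inc_right {p : Cond X} {m m' : Fin k → Pt H} (h : p.TT m m') : p.Inc m' :=
  ⟨fun i => (p.T_supp (h.2 i)).2,
    fun i j hij => (p.T_mono (h.2 i) (h.2 j)).1 (h.1.2 i j hij)⟩

lemma TT.mono {p q : Cond X} (h : p ≤ q) {m m' : Fin k → Pt H} (hm : p.TT m m') : q.TT m m' :=
  ⟨hm.1.mono h, fun i => le_T h (hm.2 i)⟩

lemma TT.flip {p : Cond X} {m m' : Fin k → Pt H} (h : p.TT m m') : p.flip.TT m' m :=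
  ⟨h.inc_right, h.2⟩

lemma Pot.flip {p : Cond X} {ι : H →* G} {τ : G} {W : Type} [MulAction G W]
    {ψ : (Fin k → Pt H) → W} (h : p.Pot ι τ ψ) : p.flip.Pot ι τ⁻¹ ψ := by
  refine ⟨h.1, fun m m' hT => ?_⟩
  have := h.2 m' m hT.flip
  rw [this, inv_smul_smul]

lemma Pot.of_T_eq {p q : Cond X} (hpq : p ≤ q) (hT : q.T = p.T) {ι : H →* G} {τ : G} {W : Type}
    [MulAction G W] {ψ : (Fin k → Pt H) → W} (h : p.Pot ι τ ψ) : q.Pot ι τ ψ := by
  refine ⟨h.1, fun m m' hm => h.2 m m' ?_⟩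
  have h1 : ∀ i, p.T (m i) (m' i) := fun i => hT ▸ hm.2 i
  exact ⟨hm.1.of_le hpq (fun i => (p.T_supp (h1 i)).1), h1⟩

lemma exists_fresh [Countable H] (p : Cond X) :
    ∃ idx : Pt H → ℕ, Function.Injective idx ∧ ∀ w, idx w ∉ p.J := by
  obtain ⟨enc, henc⟩ := exists_injective_nat (Pt H)
  refine ⟨fun w => p.J.sup id + 1 + enc w, fun a b h => henc (by simpa using h), fun w hw => ?_⟩
  have : p.J.sup id + 1 + enc w ≤ p.J.sup id := Finset.le_sup (f := id) hw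
  omega

theorem extend [Countable H] (ι : H →* G) (τ : G) (hτ : ∀ l ∈ X.L, Commute τ (ι l))
    (p : Cond X) (Z0 : Set (Pt H)) (hZfin : Z0.Finite) (hZJ : ∀ z ∈ Z0, z.i ∈ p.J)
    (hZD : ∀ z ∈ Z0, ∀ e, ¬ p.T z e) (γ : ℤ) (pz : Pt H → Set (Pt H))
    (pz_lower : ∀ z a b, p.r a b → b ∈ pz z → a ∈ pz z)
    (pz_supp : ∀ z, ∀ a ∈ pz z, a.i ∈ p.J)
    (pz_smul : ∀ l ∈ X.L, ∀ z, ∀ a ∈ pz z, l • a ∈ pz (l • z))
    (pz_mono : ∀ z z', p.r z z' → pz z ⊆ pz z')
    (c1 : ∀ z ∈ Z0, ∀ d e, p.T d e → p.r d z → p.lev e < γ ∨ (p.lev e ≤ γ ∧ e ∈ pz z))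
    (c2 : ∀ z ∈ Z0, ∀ d e, p.T d e → p.r z d → γ < p.lev e ∨ (γ ≤ p.lev e ∧ e ∉ pz z)) :
    ∃ (q : Cond X) (y : Pt H → Pt H), p ≤ q ∧
      (∀ a b, q.T a b ↔ p.T a b ∨ ∃ z ∈ Z0, ∃ l ∈ X.L, a = l • z ∧ b = l • y z) ∧
      (∀ z ∈ Z0, (y z).i ∉ p.J ∧ (y z).g ∈ X.L) ∧
      (∀ z ∈ Z0, ∀ z' ∈ Z0, (y z).i = (y z').i → ∃ l ∈ X.L, z = l • z') ∧
      ((∀ z, pz z = ∅) → ∀ z ∈ Z0, ∀ z' ∈ Z0, ∀ g g', X.φ g = X.φ g' → X.ω g < X.ω g' →
        q.r (g • y z) (g' • y z')) ∧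
      (∀ (W : Type) [MulAction G W] (ψ : (Fin k → Pt H) → W), p.Pot ι τ ψ →
        ∃ ψ' : (Fin k → Pt H) → W, q.Pot ι τ ψ' ∧ ∀ m, (∀ i, (m i).i ∈ p.J) → ψ' m = ψ m) := by
  classical
  obtain ⟨idx, hidx, hfresh⟩ := p.exists_fresh
  have : Nonempty (Pt H) := ⟨⟨1, 0⟩⟩
  let rep : Pt H → Pt H := fun u => (X.ρ u.g)⁻¹ • u
  have rep_smul : ∀ l ∈ X.L, ∀ u, rep (l • u) = rep u := by
    intro l hl u
    simp only [rep, Pt.smul_g, map_mul, X.ρ_of_mem l hl, mul_inv_rev, mul_smul, inv_smul_smul]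
  have rep_rep : ∀ u, rep (rep u) = rep u := fun u => rep_smul _ (inv_mem (X.ρ_mem _)) u
  let base : ℕ → Pt H := Function.invFun idx
  have base_idx : ∀ w, base (idx w) = w := Function.leftInverse_invFun hidx
  let Jn : Finset ℕ := (hZfin.image (fun z => idx (rep z))).toFinset
  have hJn : ∀ i, i ∈ Jn ↔ ∃ z ∈ Z0, idx (rep z) = i := by
    intro i; simp [Jn]
  let pos : Pt H → Set (Pt H) := fun u => {a | u.g⁻¹ • a ∈ pz (base u.i)}
  let kr : Pt H → Pt H → Prop := fun u v => X.ω u.g < X.ω v.g ∨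
    (X.ω u.g = X.ω v.g ∧ p.r (X.ρ u.g • base u.i) (X.ρ v.g • base v.i))
  obtain ⟨q0, hle, hJ, hT, hc, o1, o2, o3⟩ := p.insert_orbits Jn
    (by intro i hi; obtain ⟨z, -, rfl⟩ := (hJn i).1 hi; exact hfresh _) γ pos
    (fun y _ a b hab hb => pz_lower _ _ _ (p.r_smul _ hab) hb)
    (fun y _ a ha => pz_supp _ (y.g⁻¹ • a) ha)
    (fun h y _ a ha => by
      change (h * y.g)⁻¹ • h • a ∈ pz (base y.i)
      rw [mul_inv_rev, mul_smul, inv_smul_smul]; exact ha)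
    kr
    (by rintro y (h | ⟨-, h⟩)
        · exact lt_irrefl _ h
        · exact p.r_irrefl _ h)
    (by rintro x y z (h1 | ⟨e1, h1⟩) (h2 | ⟨e2, h2⟩)
        · exact Or.inl (h1.trans h2)
        · exact Or.inl (e2 ▸ h1)
        · exact Or.inl (e1 ▸ h2)
        · exact Or.inr ⟨e1.trans e2, p.r_trans h1 h2⟩)
    (by
      intro u v hu hv
      rcases lt_trichotomy (X.ω u.g) (X.ω v.g) with h | h | h
      · exact Or.inl (Or.inl h)
      · obtain ⟨z, hz, hzu⟩ := (hJn _).1 hu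
        obtain ⟨z', hz', hzv⟩ := (hJn _).1 hv
        have bu : base u.i = rep z := by rw [← hzu, base_idx]
        have bv : base v.i = rep z' := by rw [← hzv, base_idx]
        rcases p.r_tri (X.ρ u.g • base u.i) (X.ρ v.g • base v.i)
          (by rw [bu]; exact hZJ z hz) (by rw [bv]; exact hZJ z' hz') with h1 | h1 | h1
        · exact Or.inl (Or.inr ⟨h, h1⟩)
        · refine Or.inr (Or.inl ?_)
          have e1 : rep z = rep z' := by
            have := congrArg rep h1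
            rwa [rep_smul _ (X.ρ_mem _), rep_smul _ (X.ρ_mem _), bu, bv, rep_rep, rep_rep] at this
          have e2 : u.i = v.i := by rw [← hzu, ← hzv, e1]
          rw [e2] at h1
          have e3 := Pt.smul_cancel h1
          have e4 := X.ρ_of_mem _ ((X.ω_eq _ _).1 h)
          rw [map_mul, map_inv, e3, inv_mul_cancel] at e4
          exact Pt.ext (inv_mul_eq_one.1 e4.symm) e2
        · exact Or.inr (Or.inr (Or.inr ⟨h.symm, h1⟩))
      · exact Or.inr (Or.inr (Or.inl h)))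
    (by rintro h x y (h1 | ⟨e1, h1⟩)
        · exact Or.inl (X.ω_mul h _ _ h1)
        · refine Or.inr ⟨X.ω_mul_eq h e1, ?_⟩
          simp only [Pt.smul_g, Pt.smul_i, map_mul, mul_smul]
          exact p.r_smul _ h1)
  let y : Pt H → Pt H := fun u => ⟨X.ρ u.g, idx (rep u)⟩
  have y_smul : ∀ l ∈ X.L, ∀ u, l • y u = y (l • u) := by
    intro l hl u
    refine Pt.ext ?_ ?_
    · simp [y, X.ρ_of_mem l hl]
    · simp [y, rep_smul l hl]
  let Z : Set (Pt H) := {u | ∃ z ∈ Z0, ∃ l ∈ X.L, u = l • z}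
  have hZsupp : ∀ u ∈ Z, u.i ∈ p.J := by
    rintro u ⟨z, hz, l, hl, rfl⟩; exact hZJ z hz
  have hyJ : ∀ u ∈ Z, (y u).i ∈ Jn := by
    rintro u ⟨z, hz, l, hl, rfl⟩
    exact (hJn _).2 ⟨z, hz, by simp [y, rep_smul l hl]⟩
  have hyJ' : ∀ u ∈ Z, (y u).i ∈ q0.J := by
    intro u hu; rw [hJ]; exact Finset.mem_union_right _ (hyJ u hu)
  have hylev : ∀ u ∈ Z, q0.lev (y u) = γ := by
    intro u hu
    simp only [lev, Setup.lev, hc _ (hyJ u hu)]
    simp [y, X.φ_L _ (X.ρ_mem _)]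
  have hypos : ∀ u, pos (y u) = pz u := by
    intro u
    ext a
    change (X.ρ u.g)⁻¹ • a ∈ pz (base (idx (rep u))) ↔ _
    rw [base_idx]
    constructor
    · intro h
      simpa [rep] using pz_smul _ (X.ρ_mem u.g) _ _ h
    · intro h
      exact pz_smul _ (inv_mem (X.ρ_mem u.g)) _ _ h
  have hykr : ∀ u u', p.r u u' → kr (y u) (y u') := by
    intro u u' h
    refine Or.inr ⟨(X.ω_eq _ _).2 (mul_mem (inv_mem (X.ρ_mem _)) (X.ρ_mem _)), ?_⟩
    simp only [y, base_idx, X.ρ_of_mem _ (X.ρ_mem _), rep, smul_inv_smul]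
    exact h
  let N : Pt H → Pt H → Prop := fun a b => a ∈ Z ∧ b = y a
  have hNiff : ∀ a b, N a b ↔ ∃ z ∈ Z0, ∃ l ∈ X.L, a = l • z ∧ b = l • y z := by
    intro a b
    constructor
    · rintro ⟨⟨z, hz, l, hl, rfl⟩, rfl⟩
      exact ⟨z, hz, l, hl, rfl, (y_smul l hl z).symm⟩
    · rintro ⟨z, hz, l, hl, rfl, rfl⟩
      exact ⟨⟨z, hz, l, hl, rfl⟩, y_smul l hl z⟩
  let q : Cond X := q0.addEdges N
    (by rintro a b ⟨ha, rfl⟩; exact ⟨le_J hle (hZsupp a ha), hyJ' a ha⟩)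
    (by
      rintro l hl a b ⟨⟨z, hz, l', hl', rfl⟩, rfl⟩
      exact ⟨⟨z, hz, l * l', mul_mem hl hl', (mul_smul _ _ _).symm⟩, y_smul l hl _⟩)
    (by
      rintro a b a' b' ⟨ha, rfl⟩ ⟨ha', rfl⟩
      refine ⟨fun h => ?_, fun h => by rw [h]⟩
      have h' := r_of_le hle (hZsupp a ha) (hZsupp a' ha') h
      refine o3 _ _ (hyJ a ha) (hyJ a' ha') (by rw [hylev a ha, hylev a' ha']) ?_ (hykr _ _ h')
      rw [hypos, hypos]
      exact pz_mono _ _ h')
    (by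
      rintro d e u b hde ⟨hu, rfl⟩
      rw [hT] at hde
      have hd := (p.T_supp hde).1
      have he := (p.T_supp hde).2
      have hu' := hu
      obtain ⟨z, hz, l, hl, hul⟩ := hu'
      have hde' := p.T_smul (inv_mem hl) hde
      have hlev : p.lev (l⁻¹ • e) = q0.lev e := by
        rw [le_lev hle he]; exact X.lev_smul_L _ (inv_mem hl) e
      rcases p.r_tri d u hd (hZsupp u hu) with h | h | h
      · refine Or.inl ⟨le_r hle h, ?_⟩
        have h' : p.r (l⁻¹ • d) z := by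
          have := p.r_smul l⁻¹ h
          rwa [hul, inv_smul_smul] at this
        rcases c1 z hz _ _ hde' h' with h1 | ⟨h1, h2⟩
        · exact q0.r_of_lev (le_J hle he) (hyJ' u hu) (by rw [hylev u hu, ← hlev]; exact h1)
        · refine o1 _ _ he (hyJ u hu) (by rw [hylev u hu, ← hlev]; exact h1) ?_
          rw [hypos, hul]
          simpa using pz_smul l hl _ _ h2
      · rw [h, hul, inv_smul_smul] at hde'
        exact (hZD z hz _ hde').elim
      · refine Or.inr ⟨le_r hle h, ?_⟩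
        have h' : p.r z (l⁻¹ • d) := by
          have := p.r_smul l⁻¹ h
          rwa [hul, inv_smul_smul] at this
        rcases c2 z hz _ _ hde' h' with h1 | ⟨h1, h2⟩
        · exact q0.r_of_lev (hyJ' u hu) (le_J hle he) (by rw [hylev u hu, ← hlev]; exact h1)
        · refine o2 _ _ he (hyJ u hu) (by rw [hylev u hu, ← hlev]; exact h1) ?_
          rw [hypos, hul]
          intro hc
          apply h2
          simpa using pz_smul l⁻¹ (inv_mem hl) _ _ hc)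
    (by
      obtain ⟨M, hM⟩ := (hZfin.image (fun z => |q0.lev z|)).bddAbove
      refine ⟨max M |γ|, ?_⟩
      rintro a b ⟨ha, rfl⟩
      refine ⟨?_, by rw [hylev a ha]; exact le_max_right _ _⟩
      obtain ⟨z, hz, l, hl, rfl⟩ := ha
      rw [lev, X.lev_smul_L _ hl]
      exact (hM ⟨z, hz, rfl⟩).trans (le_max_left _ _))
  have hqT : ∀ a b, q.T a b ↔ p.T a b ∨ N a b := by
    intro a b
    change q0.T a b ∨ N a b ↔ _
    rw [hT]
  have hpq : p ≤ q := ⟨hle.1, hle.2.1, hle.2.2.1, fun a b h => (hqT a b).2 (Or.inl h)⟩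
  refine ⟨q, y, hpq, fun a b => by rw [hqT, hNiff], fun z hz => ⟨hfresh _, X.ρ_mem _⟩, ?_, ?_, ?_⟩
  · intro z hz z' hz' h
    have e1 : rep z = rep z' := hidx h
    refine ⟨X.ρ z.g * (X.ρ z'.g)⁻¹, mul_mem (X.ρ_mem _) (inv_mem (X.ρ_mem _)), ?_⟩
    rw [mul_smul]
    change z = X.ρ z.g • rep z'
    rw [← e1]; simp [rep]
  · intro hpz z hz z' hz' g g' hφ hω
    have hzZ : z ∈ Z := ⟨z, hz, 1, one_mem _, (one_smul _ _).symm⟩
    have hzZ' : z' ∈ Z := ⟨z', hz', 1, one_mem _, (one_smul _ _).symm⟩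
    refine o3 _ _ (hyJ z hzZ) (hyJ z' hzZ') ?_ ?_ (Or.inl ?_)
    · rw [lev, lev, X.lev_smul, X.lev_smul, hφ]
      exact congrArg _ ((hylev z hzZ).trans (hylev z' hzZ').symm)
    · intro a ha
      simp only [pos, hpz] at ha
      exact ha.elim
    · simp only [Pt.smul_g, y]
      rwa [X.ω_mul_right _ (X.ρ_mem _), X.ω_mul_right _ (X.ρ_mem _)]
  · intro W _ ψ hψ
    have hdom : ∀ a b, q.T a b → a.i ∈ p.J := by
      intro a b h
      rcases (hqT a b).1 h with h | h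
      · exact (p.T_supp h).1
      · exact hZsupp a h.1
    obtain ⟨ψ', h1, h2, h3⟩ := attach ι τ X.L hτ ψ hψ.1
      (fun a b => q.TT b a ∧ ∃ i, (a i).i ∉ p.J) (by
        rintro a b h b' ⟨hab, i, hi⟩ ⟨hab', -⟩
        have hL : h ∈ X.L := by
          rcases (hqT _ _).1 (hab.2 i) with h1 | h1
          · exact (hi (p.T_supp h1).2).elim
          · rcases (hqT _ _).1 (hab'.2 i) with h2 | h2
            · exact (hi (p.T_supp h2).2).elim
            · have e1 := congrArg Pt.g h1.2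
              have e2 := congrArg Pt.g h2.2
              simp only [Pi.smul_apply, Pt.smul_g, y] at e1 e2
              have : h = X.ρ (b' i).g * (X.ρ (b i).g)⁻¹ := by rw [← e1, ← e2]; group
              rw [this]
              exact mul_mem (X.ρ_mem _) (inv_mem (X.ρ_mem _))
        refine ⟨hL, funext fun j => ?_⟩
        exact q.T_inj (hab'.2 j) (q.T_smul hL (hab.2 j)))
    have h4 : ∀ m : Fin k → Pt H, (∀ i, (m i).i ∈ p.J) → ψ' m = ψ m := by
      intro m hm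
      refine h3 m ?_
      rintro h b ⟨-, i, hi⟩
      exact hi (hm i)
    refine ⟨ψ', ⟨h1, fun m m' hT => ?_⟩, h4⟩
    have hm : ∀ i, (m i).i ∈ p.J := fun i => hdom _ _ (hT.2 i)
    by_cases hex : ∃ i, (m' i).i ∉ p.J
    · rw [h2 m' m ⟨hT, hex⟩, h4 m hm]
    · push Not at hex
      rw [h4 m hm, h4 m' hex]
      refine hψ.2 m m' ⟨hT.1.of_le hpq hm, fun i => ?_⟩
      rcases (hqT _ _).1 (hT.2 i) with h | h
      · exact h
      · have := hex i
        rw [h.2] at this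
        exact (hfresh _ this).elim

end Cond

end Pool.Agent.MP_781439_al
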