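import Pool.Agent.MP_781439_al.Extend

/-!
The density lemmas: enlarging the support, filling gaps, extending the partial map in both
directions, and joining two classes of increasing tuples.
-/

namespace Pool.Agent.MP_781439_al

variable {H : Type} [Group H] {X : Setup H} {G : Type} [Group G] {k : ℕ}

namespace Cond

/-- Insert one new orbit at a given invariant family of cuts. -/
lemma insert_one (p : Cond X) (n : ℕ) (hn : n ∉ p.J) (γ : ℤ) (C : Set (Pt H))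
    (C_lower : ∀ a b, p.r a b → b ∈ C → a ∈ C) (C_supp : ∀ a ∈ C, a.i ∈ p.J) :
    ∃ q : Cond X, p ≤ q ∧ n ∈ q.J ∧ q.T = p.T ∧ q.lev ⟨1, n⟩ = γ ∧
      (∀ a, a.i ∈ p.J → q.lev a ≤ γ → a ∈ C → q.r a ⟨1, n⟩) ∧
      (∀ a, a.i ∈ p.J → γ ≤ q.lev a → a ∉ C → q.r ⟨1, n⟩ a) := by
  obtain ⟨q, hle, hJ, hT, hc, o1, o2, -⟩ := p.insert_orbits {n} (by simpa using hn) γ
    (fun u => {a | u.g⁻¹ • a ∈ C})
    (fun y _ a b hab hb => C_lower _ _ (p.r_smul _ hab) hb)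
    (fun y _ a ha => C_supp (y.g⁻¹ • a) ha)
    (fun h y _ a ha => by
      change (h * y.g)⁻¹ • h • a ∈ C
      rw [mul_inv_rev, mul_smul, inv_smul_smul]; exact ha)
    (fun u v => X.ω' u.g < X.ω' v.g) (fun _ => lt_irrefl _) (fun _ _ _ => lt_trans)
    (by
      intro u v hu hv
      rcases lt_trichotomy (X.ω' u.g) (X.ω' v.g) with h | h | h
      · exact Or.inl h
      · exact Or.inr (Or.inl (Pt.ext (X.ω'_inj h)
          ((Finset.mem_singleton.1 hu).trans (Finset.mem_singleton.1 hv).symm)))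
      · exact Or.inr (Or.inr h))
    (fun h u v huv => X.ω'_mul h _ _ huv)
  have hl : q.lev ⟨1, n⟩ = γ := by
    simp only [lev, Setup.lev, X.φ_one, zero_add]
    exact hc n (Finset.mem_singleton_self n)
  refine ⟨q, hle, by rw [hJ]; simp, hT, hl, fun a ha h1 h2 => ?_, fun a ha h1 h2 => ?_⟩
  · exact o1 a ⟨1, n⟩ ha (Finset.mem_singleton_self n) (hl ▸ h1) (by simpa using h2)
  · exact o2 a ⟨1, n⟩ ha (Finset.mem_singleton_self n) (hl ▸ h1) (by simpa using h2)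

lemma add_index (p : Cond X) (n : ℕ) : ∃ q : Cond X, p ≤ q ∧ n ∈ q.J ∧ q.T = p.T := by
  by_cases hn : n ∈ p.J
  · exact ⟨p, le_rfl, hn, rfl⟩
  · obtain ⟨q, h1, h2, h3, -⟩ := p.insert_one n hn 0 ∅ (fun _ _ _ h => h) (fun _ h => h.elim)
    exact ⟨q, h1, h2, h3⟩

lemma add_indices (p : Cond X) (s : Finset ℕ) : ∃ q : Cond X, p ≤ q ∧ s ⊆ q.J ∧ q.T = p.T := by
  induction s using Finset.induction_on with
  | empty => exact ⟨p, le_rfl, by simp, rfl⟩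
  | insert a s _ ih =>
    obtain ⟨q, h1, h2, h3⟩ := ih
    obtain ⟨q', h4, h5, h6⟩ := q.add_index a
    exact ⟨q', h1.trans h4, Finset.insert_subset h5 (h2.trans h4.1), h6.trans h3⟩

lemma fill_gap (p : Cond X) {x y : Pt H} (h : p.r x y) :
    ∃ q : Cond X, p ≤ q ∧ q.T = p.T ∧ ∃ z, q.r x z ∧ q.r z y := by
  obtain ⟨n, hn⟩ := Infinite.exists_notMem_finset p.J
  obtain ⟨hx, hy⟩ := p.r_supp h
  obtain ⟨q, h1, -, h3, -, h5, h6⟩ := p.insert_one n hn (p.lev x) {a | a = x ∨ p.r a x}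
    (by
      rintro a b hab (rfl | hb)
      · exact Or.inr hab
      · exact Or.inr (p.r_trans hab hb))
    (by
      rintro a (rfl | ha)
      · exact hx
      · exact (p.r_supp ha).1)
  refine ⟨q, h1, h3, ⟨1, n⟩, h5 x hx (le_lev h1 hx).le (Or.inl rfl), h6 y hy ?_ ?_⟩
  · rw [le_lev h1 hy]; exact p.r_lev h
  · rintro (rfl | h')
    · exact p.r_irrefl _ h
    · exact p.r_asymm h h'

variable [Countable H] (ι : H →* G) (τ : G) (hτ : ∀ l ∈ X.L, Commute τ (ι l))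
include hτ

lemma dom_ext (p : Cond X) {W : Type} [MulAction G W] {ψ : (Fin k → Pt H) → W}
    (hψ : p.Pot ι τ ψ) (x : Pt H) (hx : x.i ∈ p.J) :
    ∃ q : Cond X, p ≤ q ∧ (∃ y, q.T x y) ∧ ∃ ψ' : (Fin k → Pt H) → W, q.Pot ι τ ψ' := by
  by_cases hD : ∃ y, p.T x y
  · exact ⟨p, le_rfl, hD, ψ, hψ⟩
  push Not at hD
  obtain ⟨M, hM⟩ := p.T_bdd
  obtain ⟨γ, hγ1, hγ2⟩ : ∃ γ : ℤ, (∀ d e, p.T d e → p.r d x → p.lev e ≤ γ) ∧
      ∀ d e, p.T d e → p.r x d → γ ≤ p.lev e := by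
    by_cases hne : ∃ n : ℤ, ∃ d e, p.T d e ∧ p.r d x ∧ p.lev e = n
    · obtain ⟨n, ⟨d, e, h1, h2, rfl⟩, hn⟩ := Int.exists_greatest_of_bdd
        (P := fun n => ∃ d e, p.T d e ∧ p.r d x ∧ p.lev e = n)
        ⟨M, by rintro z ⟨d, e, h1, -, rfl⟩; exact (le_abs_self _).trans (hM d e h1).2⟩ hne
      refine ⟨p.lev e, fun d' e' h3 h4 => hn _ ⟨d', e', h3, h4, rfl⟩, fun d' e' h3 h4 => ?_⟩
      exact p.r_lev ((p.T_mono h1 h3).1 (p.r_trans h2 h4))
    · refine ⟨-M, fun d e h1 h2 => (hne ⟨_, d, e, h1, h2, rfl⟩).elim, fun d e h1 _ => ?_⟩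
      exact (abs_le.1 (hM d e h1).2).1
  obtain ⟨q, y, h1, h2, -, -, -, h6⟩ := extend (k := k) ι τ hτ p {x} (Set.finite_singleton x)
    (by rintro z rfl; exact hx) (by rintro z rfl; exact hD) γ
    (fun z => {a | ∃ d e, p.T d e ∧ p.r d z ∧ (a = e ∨ p.r a e)})
    (by
      rintro z a b hab ⟨d, e, h1, h2, rfl | h3⟩
      · exact ⟨d, _, h1, h2, Or.inr hab⟩
      · exact ⟨d, e, h1, h2, Or.inr (p.r_trans hab h3)⟩)
    (by
      rintro z a ⟨d, e, h1, h2, rfl | h3⟩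
      · exact (p.T_supp h1).2
      · exact (p.r_supp h3).1)
    (by
      rintro l hl z a ⟨d, e, h1, h2, h3⟩
      exact ⟨l • d, l • e, p.T_smul hl h1, p.r_smul l h2,
        h3.imp (fun h => by rw [h]) (p.r_smul l)⟩)
    (by
      rintro z z' hz a ⟨d, e, h1, h2, h3⟩
      exact ⟨d, e, h1, p.r_trans h2 hz, h3⟩)
    (by
      rintro z rfl d e h1 h2
      exact Or.inr ⟨hγ1 d e h1 h2, d, e, h1, h2, Or.inl rfl⟩)
    (by
      rintro z rfl d e h1 h2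
      refine Or.inr ⟨hγ2 d e h1 h2, ?_⟩
      rintro ⟨d', e', h3, h4, h5⟩
      have h6 := (p.T_mono h3 h1).1 (p.r_trans h4 h2)
      rcases h5 with rfl | h5
      · exact p.r_irrefl _ h6
      · exact p.r_asymm h5 h6)
  obtain ⟨ψ', hψ', -⟩ := h6 W ψ hψ
  exact ⟨q, h1, ⟨y x, (h2 _ _).2 (Or.inr ⟨x, rfl, 1, one_mem _, (one_smul _ _).symm,
    (one_smul _ _).symm⟩)⟩, ψ', hψ'⟩

lemma ran_ext (p : Cond X) {W : Type} [MulAction G W] {ψ : (Fin k → Pt H) → W}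
    (hψ : p.Pot ι τ ψ) (x : Pt H) (hx : x.i ∈ p.J) :
    ∃ q : Cond X, p ≤ q ∧ (∃ y, q.T y x) ∧ ∃ ψ' : (Fin k → Pt H) → W, q.Pot ι τ ψ' := by
  obtain ⟨q, h1, h2, ψ', h3⟩ := dom_ext ι τ⁻¹ (fun l hl => (hτ l hl).inv_left) p.flip hψ.flip x hx
  refine ⟨q.flip, flip_le_flip h1, h2, ψ', ?_⟩
  simpa using h3.flip

omit [Countable H] hτ in
/-- One move between tuples. -/
def Move (p : Cond X) (m m' : Fin k → Pt H) : Prop := (∃ h : H, m' = h • m) ∨ p.TT m m'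

omit [Countable H] hτ in
/-- Tuples joined by a chain of moves. -/
def Conn (p : Cond X) : (Fin k → Pt H) → (Fin k → Pt H) → Prop := Relation.EqvGen p.Move

omit [Countable H] hτ in
lemma Conn.mono {p q : Cond X} (h : p ≤ q) {m m' : Fin k → Pt H} (hm : p.Conn m m') :
    q.Conn m m' := by
  induction hm with
  | rel x y hxy => exact Relation.EqvGen.rel _ _ (Or.imp id (TT.mono h) hxy)
  | refl x => exact Relation.EqvGen.refl x
  | symm x y _ ih => exact Relation.EqvGen.symm _ _ ih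
  | trans x y z _ _ ih1 ih2 => exact Relation.EqvGen.trans _ _ _ ih1 ih2

omit [Countable H] hτ in
lemma conn_equiv (p : Cond X) : Equivalence (p.Conn (k := k)) :=
  Relation.EqvGen.is_equivalence _

lemma special (p : Cond X) (a : Fin k → Pt H) (ha : p.Inc a) :
    ∃ (q : Cond X) (y : Fin k → Pt H), p ≤ q ∧ q.Inc y ∧ q.Conn a y ∧
      (∀ i, (y i).i ∉ p.J ∧ (y i).g ∈ X.L) ∧
      ((∀ i, (a i).g ∈ X.L) → ∀ i j, (y i).i = (y j).i → i = j) ∧
      (∀ i j g g', X.φ g = X.φ g' → X.ω g < X.ω g' → q.r (g • y i) (g' • y j)) ∧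
      (∀ x b, q.T x b → p.T x b ∨ ∃ i, x.i = (a i).i ∧ ∃ l ∈ X.L, b = l • y i) ∧
      (∀ i, ∃ x, q.T x (y i)) ∧
      (∀ (W : Type) [MulAction G W] (ψ : (Fin k → Pt H) → W), p.Pot ι τ ψ →
        ∃ ψ' : (Fin k → Pt H) → W, q.Pot ι τ ψ' ∧ ∀ m, (∀ i, (m i).i ∈ p.J) → ψ' m = ψ m) := by
  obtain ⟨M, hM⟩ := p.T_bdd
  obtain ⟨B, hB⟩ := (Set.finite_range (fun i => |p.lev (a i)|)).bddAbove
  obtain ⟨κ, hκ1, hκ2⟩ := X.mal (M + B + 1)
  have hhigh : ∀ i, M < p.lev (κ • a i) := by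
    intro i
    have h1 : |p.lev (a i)| ≤ B := hB ⟨i, rfl⟩
    have h2 := neg_abs_le (p.lev (a i))
    rw [lev, X.lev_smul]
    change M < X.φ κ + p.lev (a i)
    linarith
  obtain ⟨q, y, h1, h2, h3, h4, h5, h6⟩ := extend (k := k) ι τ hτ p (Set.range (κ • a))
    (Set.finite_range _) (by rintro z ⟨i, rfl⟩; exact ha.1 i)
    (by
      rintro z ⟨i, rfl⟩ e he
      exact absurd ((le_abs_self _).trans (hM _ _ he).1) (not_le.2 (hhigh i)))
    (M + 1) (fun _ => ∅) (fun _ _ _ _ h => h) (fun _ _ h => h.elim) (fun _ _ _ _ h => h.elim)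
    (fun _ _ _ => le_rfl)
    (fun z _ d e h _ => Or.inl (lt_of_le_of_lt ((le_abs_self _).trans (hM _ _ h).2) (lt_add_one M)))
    (by
      rintro z ⟨i, rfl⟩ d e h hr
      exact absurd ((p.r_lev hr).trans ((le_abs_self _).trans (hM _ _ h).1)) (not_le.2 (hhigh i)))
  have hT : ∀ i, q.T (κ • a i) (y (κ • a i)) := fun i =>
    (h2 _ _).2 (Or.inr ⟨κ • a i, ⟨i, rfl⟩, 1, one_mem _, (one_smul _ _).symm, (one_smul _ _).symm⟩)
  have hTT : q.TT (κ • a) (fun i => y (κ • a i)) := ⟨(ha.smul κ).mono h1, hT⟩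
  refine ⟨q, fun i => y (κ • a i), h1, hTT.inc_right, ?_, fun i => h3 _ ⟨i, rfl⟩, ?_, ?_, ?_,
    fun i => ⟨_, hT i⟩, h6⟩
  · exact q.conn_equiv.trans (Relation.EqvGen.rel _ _ (Or.inl ⟨κ, rfl⟩))
      (Relation.EqvGen.rel _ _ (Or.inr hTT))
  · intro hL i j hij
    obtain ⟨l, hl, e⟩ := h4 _ ⟨i, rfl⟩ _ ⟨j, rfl⟩ hij
    have e1 := congrArg Pt.g e
    simp only [Pi.smul_apply, Pt.smul_g] at e1
    have e2 : κ⁻¹ * l * κ = (a i).g * ((a j).g)⁻¹ := by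
      rw [eq_mul_inv_iff_mul_eq]
      calc κ⁻¹ * l * κ * (a j).g = κ⁻¹ * (l * (κ * (a j).g)) := by group
        _ = (a i).g := by rw [← e1]; group
    have e3 : l = 1 := hκ2 l hl (by rw [e2]; exact mul_mem (hL i) (inv_mem (hL j)))
    rw [e3, one_smul] at e
    exact (ha.smul κ).inj e
  · intro i j g g' hφ hω
    exact h5 (fun _ => rfl) _ ⟨i, rfl⟩ _ ⟨j, rfl⟩ g g' hφ hω
  · intro x b hxb
    rcases (h2 x b).1 hxb with h | ⟨z, ⟨i, rfl⟩, l, hl, rfl, rfl⟩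
    · exact Or.inl h
    · exact Or.inr ⟨i, rfl, l, hl, rfl⟩

end Cond

/-- Group elements with a label. -/
structure Lab (G : Type) where
  g : G
  b : Prop

instance : MulAction G (Lab G) where
  smul a u := ⟨a * u.g, u.b⟩
  one_smul u := by cases u; exact congrArg₂ Lab.mk (one_mul _) rfl
  mul_smul a b u := congrArg₂ Lab.mk (mul_assoc _ _ _) rfl

@[simp] lemma Lab.smul_g (a : G) (u : Lab G) : (a • u).g = a * u.g := rfl
@[simp] lemma Lab.smul_b (a : G) (u : Lab G) : (a • u).b = u.b := rfl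

namespace Cond

lemma Pot.label {p : Cond X} {ι : H →* G} {τ : G} {ψ : (Fin k → Pt H) → Lab G}
    (hψ : p.Pot ι τ ψ) {m m' : Fin k → Pt H} (h : p.Conn m m') : (ψ m).b = (ψ m').b := by
  induction h with
  | rel x y hxy =>
    rcases hxy with ⟨h, rfl⟩ | h
    · rw [hψ.1]; rfl
    · rw [hψ.2 _ _ h]; rfl
  | refl x => rfl
  | symm x y _ ih => exact ih.symm
  | trans x y z _ _ ih1 ih2 => exact ih1.trans ih2

theorem glue (ι : H →* G) (τ : G) (hτ : ∀ l ∈ X.L, Commute τ (ι l))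
    (p : Cond X) (y y' : Fin k → Pt H) (hy : p.Inc y) (hy' : p.Inc y')
    (inj : ∀ i j, (y i).i = (y j).i → i = j)
    (hne : ∀ i j, (y i).i ≠ (y' j).i)
    (blk : ∀ i j g g', X.φ g = X.φ g' → X.ω g < X.ω g' → p.r (g • y i) (g' • y j))
    (blk' : ∀ i j g g', X.φ g = X.φ g' → X.ω g < X.ω g' → p.r (g • y' i) (g' • y' j))
    (dom : ∀ a b, p.T a b → ∀ i, a.i ≠ (y i).i ∧ a.i ≠ (y' i).i)
    (ran : ∀ a b, p.T a b → ∀ i, b.i = (y i).i → ∃ l ∈ X.L, b = l • y i)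
    (inR : ∀ i, ∃ x, p.T x (y i)) (inR' : ∀ i, ∃ x, p.T x (y' i))
    (ψ : (Fin k → Pt H) → Lab G) (hψ : p.Pot ι τ ψ) (hb : ¬ (ψ y).b) (hb' : (ψ y').b) :
    ∃ q : Cond X, p ≤ q ∧ q.Conn y y' ∧ ∃ ψ' : (Fin k → Pt H) → G, q.Pot ι τ ψ' := by
  classical
  obtain ⟨M, hM⟩ := p.T_bdd
  obtain ⟨κ, hκ1, hκ2⟩ := X.mal (2 * M + 1)
  have hφl : ∀ l ∈ X.L, X.φ (l * κ) = X.φ κ := by
    intro l hl; rw [X.φ_mul, X.φ_L l hl, zero_add]
  have hlevy : ∀ i, |p.lev (y i)| ≤ M := fun i => (inR i).elim fun x hx => (hM _ _ hx).2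
  have hlevy' : ∀ i, |p.lev (y' i)| ≤ M := fun i => (inR' i).elim fun x hx => (hM _ _ hx).2
  have hmal : ∀ l ∈ X.L, ∀ l' ∈ X.L, (l * κ)⁻¹ * (l' * κ) ∈ X.L → l = l' := by
    intro l hl l' hl' h
    have := hκ2 (l⁻¹ * l') (mul_mem (inv_mem hl) hl') (by simpa [mul_assoc] using h)
    exact inv_mul_eq_one.1 this
  let N : Pt H → Pt H → Prop := fun a b =>
    ∃ i, ∃ l ∈ X.L, a = (l * κ) • y i ∧ b = (l * κ) • y' i
  let q : Cond X := p.addEdges N
    (by rintro a b ⟨i, l, hl, rfl, rfl⟩; exact ⟨hy.1 i, hy'.1 i⟩)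
    (by
      rintro l hl a b ⟨i, l', hl', rfl, rfl⟩
      exact ⟨i, l * l', mul_mem hl hl', by rw [← mul_smul, mul_assoc],
        by rw [← mul_smul, mul_assoc]⟩)
    (by
      rintro a b a' b' ⟨i, l, hl, rfl, rfl⟩ ⟨j, l', hl', rfl, rfl⟩
      have hφ : X.φ (l * κ) = X.φ (l' * κ) := by rw [hφl l hl, hφl l' hl']
      constructor
      · intro h
        rcases lt_trichotomy (X.ω (l * κ)) (X.ω (l' * κ)) with h1 | h1 | h1
        · exact blk' i j _ _ hφ h1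
        · have := hmal l hl l' hl' ((X.ω_eq _ _).1 h1)
          subst this
          rw [p.r_smul_iff] at h ⊢
          exact hy'.2 i j (hy.lt_iff.1 h)
        · exact (p.r_asymm h (blk j i _ _ hφ.symm h1)).elim
      · intro h
        have e1 : i = j := inj i j (by simpa using congrArg Pt.i h)
        subst e1
        rw [Pt.smul_cancel h])
    (by
      rintro d e a b hde ⟨i, l, hl, rfl, rfl⟩
      left
      have h1 := abs_le.1 (hM d e hde).1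
      have h2 := abs_le.1 (hM d e hde).2
      have h3 := abs_le.1 (hlevy i)
      have h4 := abs_le.1 (hlevy' i)
      constructor
      · refine p.r_of_lev (p.T_supp hde).1 (hy.1 i) ?_
        rw [lev, lev, X.lev_smul, hφl l hl]
        change _ < X.φ κ + p.lev (y i)
        linarith
      · refine p.r_of_lev (p.T_supp hde).2 (hy'.1 i) ?_
        rw [lev, lev, X.lev_smul, hφl l hl]
        change _ < X.φ κ + p.lev (y' i)
        linarith)
    (by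
      refine ⟨|X.φ κ| + M, ?_⟩
      rintro a b ⟨i, l, hl, rfl, rfl⟩
      rw [lev, lev, X.lev_smul, X.lev_smul, hφl l hl]
      exact ⟨(abs_add_le _ _).trans (add_le_add le_rfl (hlevy i)),
        (abs_add_le _ _).trans (add_le_add le_rfl (hlevy' i))⟩)
  have hqT : ∀ a b, q.T a b ↔ p.T a b ∨ N a b := fun _ _ => Iff.rfl
  have hpq : p ≤ q := ⟨le_rfl, fun _ _ h => h, fun _ _ => rfl, fun _ _ h => Or.inl h⟩
  have hP : ∀ l ∈ X.L, q.TT ((l * κ) • y) ((l * κ) • y') := fun l hl =>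
    ⟨hy.smul _, fun i => Or.inr ⟨i, l, hl, rfl, rfl⟩⟩
  refine ⟨q, hpq, ?_, ?_⟩
  · refine q.conn_equiv.trans (Relation.EqvGen.rel _ _ (Or.inl ⟨1 * κ, rfl⟩))
      (q.conn_equiv.trans (Relation.EqvGen.rel _ _ (Or.inr (hP 1 (one_mem _))))
        (q.conn_equiv.symm (Relation.EqvGen.rel _ _ (Or.inl ⟨1 * κ, rfl⟩))))
  let c : G := (ψ (κ • y')).g⁻¹ * τ * (ψ (κ • y)).g
  let ψ1 : (Fin k → Pt H) → G := fun m => if (ψ m).b then (ψ m).g * c else (ψ m).g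
  have hψ1a : ∀ (h : H) m, ψ1 (h • m) = ι h • ψ1 m := by
    intro h m
    simp only [ψ1, hψ.1, Lab.smul_b, Lab.smul_g, smul_eq_mul]
    split_ifs <;> simp [mul_assoc]
  have hψ1b : ∀ m m', p.TT m m' → ψ1 m' = τ • ψ1 m := by
    intro m m' h
    simp only [ψ1, hψ.2 m m' h, Lab.smul_b, Lab.smul_g, smul_eq_mul]
    split_ifs <;> simp [mul_assoc]
  have hψ1c : ∀ l ∈ X.L, ψ1 ((l * κ) • y') = τ • ψ1 ((l * κ) • y) := by
    intro l hl
    rw [mul_smul, mul_smul, hψ1a, hψ1a l, ← mul_smul τ, (hτ l hl).eq, mul_smul]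
    congr 1
    have b1 : (ψ (κ • y')).b := by rw [hψ.1]; exact hb'
    have b2 : ¬ (ψ (κ • y)).b := by rw [hψ.1]; exact hb
    simp only [ψ1, b1, b2, if_true, if_false, c, smul_eq_mul]
    group
  let T2 : (Fin k → Pt H) → (Fin k → Pt H) → Prop := fun a b =>
    q.TT a b ∧ (∃ i, N (a i) (b i)) ∧ ∀ l ∈ X.L, a ≠ (l * κ) • y
  obtain ⟨ψ', h1, h2, h3⟩ := attach ι τ⁻¹ X.L (fun l hl => (hτ l hl).inv_left) ψ1 hψ1a T2 (by
    rintro a b h b' ⟨hab, ⟨i0, i, l, hl, e, -⟩, -⟩ ⟨hab', -⟩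
    have hL : h ∈ X.L := by
      rcases (hqT _ _).1 (hab'.2 i0) with h1 | ⟨j, l', hl', e', -⟩
      · exact ((dom _ _ h1 i).1 (by simp [e])).elim
      · have e1 : i = j := inj i j (by simpa [e] using congrArg Pt.i e')
        subst e1
        rw [Pi.smul_apply, e, ← mul_smul] at e'
        have e2 := Pt.smul_cancel e'
        have : h = l' * l⁻¹ := by
          rw [← mul_assoc] at e2
          rw [← mul_right_cancel e2]; group
        rw [this]; exact mul_mem hl' (inv_mem hl)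
    refine ⟨hL, funext fun j => ?_⟩
    exact q.T_fun (hab'.2 j) (q.T_smul hL (hab.2 j)))
  have U1 : ∀ m : Fin k → Pt H, (∀ i, ∃ e, p.T (m i) e) → ψ' m = ψ1 m := by
    intro m hm
    refine h3 m ?_
    rintro h b ⟨-, ⟨i0, i, l, hl, e, -⟩, -⟩
    obtain ⟨e', he'⟩ := hm i0
    exact (dom _ _ he' i).1 (by simpa using congrArg Pt.i e)
  have U3 : ∀ l' ∈ X.L, ψ' ((l' * κ) • y) = ψ1 ((l' * κ) • y) := by
    intro l' hl'
    refine h3 _ ?_
    rintro h b ⟨-, ⟨i0, i, l, hl, e, -⟩, hno⟩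
    have e1 : i0 = i := inj i0 i (by simpa using congrArg Pt.i e)
    subst e1
    rw [Pi.smul_apply, Pi.smul_apply, ← mul_smul] at e
    exact hno l hl (by rw [← mul_smul, Pt.smul_cancel e])
  have U5 : ∀ m : Fin k → Pt H, (∃ i j, (m i).i = (y' j).i) → ψ' m = ψ1 m := by
    rintro m ⟨i, j, hij⟩
    refine h3 m ?_
    rintro h b ⟨hT, -⟩
    rcases (hqT _ _).1 (hT.2 i) with h1 | ⟨s, l, hl, e, -⟩
    · exact (dom _ _ h1 j).2 hij
    · exact hne s j ((congrArg Pt.i e).symm.trans hij)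
  have U2 : ∀ m : Fin k → Pt H, (∀ i, ∃ d, p.T d (m i)) → ψ' m = ψ1 m := by
    intro m hm
    refine h3 m ?_
    rintro h b ⟨hT, ⟨i0, i, l, hl, e, -⟩, hno⟩
    have key : ∀ j s, ∀ l1 ∈ X.L, (h • m) j = (l1 * κ) • y s → h⁻¹ * (l1 * κ) ∈ X.L := by
      intro j s l1 _ e1
      obtain ⟨d, hd⟩ := hm j
      obtain ⟨l2, hl2, e2⟩ := ran _ _ hd s (by simpa using congrArg Pt.i e1)
      rw [Pi.smul_apply, e2, ← mul_smul] at e1
      rw [← Pt.smul_cancel e1]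
      simpa using hl2
    have k0 := key i0 i l hl e
    have hφh : X.φ h = X.φ κ := by
      have := X.φ_L _ k0
      rw [X.φ_mul, X.φ_inv, hφl l hl] at this
      linarith
    have all : ∀ j, ∃ s, (h • m) j = (l * κ) • y s := by
      intro j
      rcases (hqT _ _).1 (hT.2 j) with h1 | ⟨s, l1, hl1, e1, -⟩
      · exfalso
        obtain ⟨d, hd⟩ := hm j
        have a1 := abs_le.1 (hM _ _ h1).1
        have a2 := abs_le.1 (hM _ _ hd).2
        rw [Pi.smul_apply, X.lev_smul, hφh] at a1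
        linarith
      · have k1 := key j s l1 hl1 e1
        have : l = l1 := hmal l hl l1 hl1 (by
          have := mul_mem (inv_mem k0) k1
          simpa [mul_assoc] using this)
        exact ⟨s, this ▸ e1⟩
    choose s hs using all
    have hmono : StrictMono s := by
      intro a b hab
      have := hT.1.2 a b hab
      rw [hs a, hs b] at this
      exact hy.lt_iff.1 ((p.r_smul_iff _).1 this)
    apply hno l hl
    funext j
    rw [hs j, hmono.apply_eq]; rfl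
  refine ⟨ψ', h1, fun m m' hT => ?_⟩
  by_cases hN : ∃ i, N (m i) (m' i)
  · by_cases hl : ∃ l ∈ X.L, m = (l * κ) • y
    · obtain ⟨l, hl, rfl⟩ := hl
      have e : m' = (l * κ) • y' := funext fun j => q.T_fun (hT.2 j) ((hP l hl).2 j)
      obtain ⟨i, -⟩ := hN
      rw [e, U3 l hl, U5 ((l * κ) • y') ⟨i, i, rfl⟩, hψ1c l hl]
    · push Not at hl
      have e := h2 m m' ⟨hT, hN, hl⟩
      obtain ⟨i, j, l, -, -, e2⟩ := hN
      rw [U5 m' ⟨i, j, by rw [e2]; rfl⟩, e, smul_inv_smul]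
  · push Not at hN
    have hT' : ∀ i, p.T (m i) (m' i) := fun i => ((hqT _ _).1 (hT.2 i)).resolve_right (hN i)
    rw [U1 m (fun i => ⟨_, hT' i⟩), U2 m' (fun i => ⟨_, hT' i⟩)]
    exact hψ1b m m' ⟨hT.1, hT'⟩

theorem connect [Countable H] (ι : H →* G) (τ : G) (hτ : ∀ l ∈ X.L, Commute τ (ι l))
    (p : Cond X) {ψ : (Fin k → Pt H) → G} (hψ : p.Pot ι τ ψ) (A B : Fin k → Pt H)
    (hA : p.Inc A) (hB : p.Inc B) :
    ∃ q : Cond X, p ≤ q ∧ q.Conn A B ∧ ∃ ψ' : (Fin k → Pt H) → G, q.Pot ι τ ψ' := by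
  by_cases hc : p.Conn A B
  · exact ⟨p, le_rfl, hc, ψ, hψ⟩
  let ψ0 : (Fin k → Pt H) → Lab G := fun m => ⟨ψ m, p.Conn m B⟩
  have hmove : ∀ m m', p.Move m m' → (p.Conn m' B ↔ p.Conn m B) := fun m m' h =>
    ⟨fun h' => p.conn_equiv.trans (Relation.EqvGen.rel _ _ h) h',
      fun h' => p.conn_equiv.trans (p.conn_equiv.symm (Relation.EqvGen.rel _ _ h)) h'⟩
  have hψ0 : p.Pot ι τ ψ0 := by
    constructor
    · intro h m
      exact congrArg₂ Lab.mk (hψ.1 h m) (propext (hmove _ _ (Or.inl ⟨h, rfl⟩)))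
    · intro m m' h
      exact congrArg₂ Lab.mk (hψ.2 m m' h) (propext (hmove _ _ (Or.inr h)))
  obtain ⟨p1, a1, l1, i1, c1, n1, -, -, -, -, P1⟩ := special ι τ hτ p A hA
  obtain ⟨p2, b1, l2, i2, c2, n2, -, -, -, -, P2⟩ := special ι τ hτ p1 B (hB.mono l1)
  obtain ⟨p3, y, l3, i3, c3, n3, j3, k3, t3, r3, P3⟩ := special ι τ hτ p2 a1 (i1.mono l2)
  obtain ⟨p4, y', l4, i4, c4, n4, -, k4, t4, r4, P4⟩ := special ι τ hτ p3 b1 (i2.mono l3)
  obtain ⟨ψ1, q1, e1⟩ := P1 _ ψ0 hψ0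
  obtain ⟨ψ2, q2, e2⟩ := P2 _ ψ1 q1
  obtain ⟨ψ3, q3, e3⟩ := P3 _ ψ2 q2
  obtain ⟨ψ4, q4, e4⟩ := P4 _ ψ3 q3
  have hAy : p4.Conn A y :=
    p4.conn_equiv.trans (c1.mono (l2.trans (l3.trans l4))) (c3.mono l4)
  have hBy : p4.Conn B y' := p4.conn_equiv.trans (c2.mono (l3.trans l4)) c4
  have hψ4 : ∀ m : Fin k → Pt H, p.Inc m → ψ4 m = ψ0 m := by
    intro m hm
    rw [e4 m (hm.mono (l1.trans (l2.trans l3))).1, e3 m (hm.mono (l1.trans l2)).1,
      e2 m (hm.mono l1).1, e1 m hm.1]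
  have hinj := j3 (fun i => (n1 i).2)
  have hdom2 : ∀ a b, p4.T a b → a.i ∈ p2.J := by
    intro a b h
    rcases t4 a b h with h | ⟨i, e, -⟩
    · rcases t3 a b h with h | ⟨i, e, -⟩
      · exact (p2.T_supp h).1
      · rw [e]; exact (i1.mono l2).1 i
    · rw [e]; exact i2.1 i
  obtain ⟨q, h1, h2, h3⟩ := glue ι τ hτ p4 y y' (i3.mono l4) i4 hinj
    (fun i j e => (n4 j).1 (e ▸ i3.1 i))
    (fun i j g g' a b => le_r l4 (k3 i j g g' a b)) k4
    (fun a b h i => ⟨fun e => (n3 i).1 (e ▸ hdom2 a b h),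
      fun e => (n4 i).1 (e ▸ le_J l3 (hdom2 a b h))⟩)
    (by
      intro a b h i e
      rcases t4 a b h with h | ⟨j, -, l, -, rfl⟩
      · rcases t3 a b h with h | ⟨j, -, l, hl, rfl⟩
        · exact ((n3 i).1 (e ▸ (p2.T_supp h).2)).elim
        · rw [hinj j i e]; exact ⟨l, hl, rfl⟩
      · exact ((n4 j).1 (by rw [show (y' j).i = (y i).i from e]; exact i3.1 i)).elim)
    (fun i => (r3 i).imp fun x hx => le_T l4 hx) r4 ψ4 q4
    (by rw [← q4.label hAy, hψ4 A hA]; exact hc)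
    (by rw [← q4.label hBy, hψ4 B hB]; exact p.conn_equiv.refl B)
  refine ⟨q, l1.trans (l2.trans (l3.trans (l4.trans h1))), ?_, h3⟩
  exact q.conn_equiv.trans (hAy.mono h1) (q.conn_equiv.trans h2 (q.conn_equiv.symm (hBy.mono h1)))

end Cond

end Pool.Agent.MP_781439_al
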