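import Pool.Agent.MP_781439_al.Basic

/-!
Weak malnormality of links in right-angled Artin groups on graphs that are not joins.
-/

namespace Pool.Agent.MP_781439_al

variable {V : Type} {Γ : SimpleGraph V}

/-- The parabolic subgroup on `S` meets its conjugate by `κ` trivially. -/
def Mal (Γ : SimpleGraph V) (S : Set V) (κ : RAAG Γ) : Prop :=
  ∀ g ∈ par Γ S, κ⁻¹ * g * κ ∈ par Γ S → g = 1

lemma Mal.mono {S T : Set V} {κ : RAAG Γ} (h : Mal Γ T κ) (hST : S ⊆ T) : Mal Γ S κ :=
  fun g hg hg' => h g (par_mono hST hg) (par_mono hST hg')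

lemma mal_empty : Mal Γ ∅ 1 := by
  intro g hg _
  rwa [par_empty, Subgroup.mem_bot] at hg

/-- Act by `a` on level zero and by `b` on the other levels. -/
def lev {G : Type} [Group G] (Y : Type) [MulAction G Y] : G × G →* Equiv.Perm (Y × ℤ) where
  toFun p :=
    { toFun := fun x => ((if x.2 = 0 then p.1 else p.2) • x.1, x.2)
      invFun := fun x => ((if x.2 = 0 then p.1 else p.2)⁻¹ • x.1, x.2)
      left_inv := fun x => by by_cases h : x.2 = 0 <;> simp [h, Prod.ext_iff]
      right_inv := fun x => by by_cases h : x.2 = 0 <;> simp [h, Prod.ext_iff] }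
  map_one' := by ext x <;> simp
  map_mul' a b := by
    ext x
    · by_cases h : x.2 = 0 <;> simp [h, mul_smul]
    · simp

lemma lev_apply {G : Type} [Group G] {Y : Type} [MulAction G Y] (a b : G) (y : Y) (n : ℤ) :
    lev Y (a, b) (y, n) = ((if n = 0 then a else b) • y, n) := rfl

/-- Shift the level. -/
def shift (Y : Type) : Equiv.Perm (Y × ℤ) := Equiv.prodCongr (Equiv.refl Y) (Equiv.addRight 1)

lemma shift_apply {Y : Type} (y : Y) (n : ℤ) : shift Y (y, n) = (y, n + 1) := rfl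

lemma shift_pow {Y : Type} (N : ℕ) (y : Y) (n : ℤ) : (shift Y ^ N) (y, n) = (y, n + N) := by
  induction N generalizing n with
  | zero => simp
  | succ N ih => rw [pow_succ, Equiv.Perm.mul_apply, shift_apply, ih]; push_cast; ring_nf

lemma mal_step {S : Set V} {w : V} (hw : w ∉ S) {κ : RAAG Γ}
    (hκ : Mal Γ (S ∩ Γ.neighborSet w) κ) :
    ∃ N0 : ℕ, ∀ N ≥ N0, Mal Γ S (gen Γ w ^ N * κ * gen Γ w ^ N) := by
  classical
  let K := par Γ (Γ.neighborSet w)
  let Y := RAAG Γ ⧸ K
  let c0 : Y := ((1 : RAAG Γ) : RAAG Γ ⧸ K)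
  have hc0 : ∀ g : RAAG Γ, g • c0 = c0 ↔ g ∈ K := by
    intro g
    change ((g * 1 : RAAG Γ) : RAAG Γ ⧸ K) = ((1 : RAAG Γ) : RAAG Γ ⧸ K) ↔ _
    rw [QuotientGroup.eq]
    simp
  let f : V → Equiv.Perm (Y × ℤ) := fun u =>
    if u = w then shift Y else lev Y (gen Γ u, retr Γ (Γ.neighborSet w) (gen Γ u))
  have hsh : ∀ v, Γ.Adj w v → Commute (shift Y) (f v) := by
    intro v hv
    have hvw : v ≠ w := hv.ne.symm
    simp only [f, hvw, if_false]
    rw [retr_gen_of_mem (show v ∈ Γ.neighborSet w from hv)]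
    apply Equiv.ext
    rintro ⟨y, n⟩
    simp only [Equiv.Perm.mul_apply, lev_apply, shift_apply, ite_self]
  have hf : ∀ u v, Γ.Adj u v → Commute (f u) (f v) := by
    intro u v huv
    by_cases hu : u = w
    · subst hu
      have : f u = shift Y := by simp [f]
      rw [this]; exact hsh v huv
    · by_cases hv : v = w
      · subst hv
        have : f v = shift Y := by simp [f]
        rw [this]; exact (hsh u huv.symm).symm
      · simp only [f, hu, hv, if_false]
        apply Commute.map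
        exact Prod.ext (gen_comm huv).eq ((gen_comm huv).map _).eq
  let α : RAAG Γ →* Equiv.Perm (Y × ℤ) := lift f hf
  have hαw : α (gen Γ w) = shift Y := by simp [α, f]
  have hαS : ∀ g ∈ par Γ S, α g = lev Y (g, retr Γ (Γ.neighborSet w) g) := by
    intro g hg
    refine par_induction (P := fun g => α g = lev Y (g, retr Γ (Γ.neighborSet w) g)) ?_ ?_ ?_ ?_ hg
    · simp only [map_one]; exact (map_one (lev Y)).symm
    · intro u hu
      have : u ≠ w := by rintro rfl; exact hw hu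
      simp [α, f, this]
    · intro a b ha hb
      rw [map_mul, ha, hb, ← map_mul, map_mul (retr Γ _)]; rfl
    · intro a ha
      rw [map_inv, ha, ← map_inv, map_inv (retr Γ _)]; rfl
  have hoff : ∀ g ∈ par Γ S, ∀ n : ℤ, n ≠ 0 → α g (c0, n) = (c0, n) := by
    intro g hg n hn
    rw [hαS g hg, lev_apply, if_neg hn, (hc0 _).2 (retr_mem _ g)]
  have hon : ∀ g ∈ par Γ S, ∀ c, α g (c, 0) = (g • c, 0) := by
    intro g hg c
    rw [hαS g hg, lev_apply, if_pos rfl]
  have hP : ∀ x : RAAG Γ, ∃ M : ℤ, ∀ n : ℤ, M ≤ |n| → α x (c0, n) = (c0, n + expo Γ {w} x) := by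
    intro x
    refine raag_induction (P := fun x => ∃ M : ℤ, ∀ n : ℤ, M ≤ |n| →
      α x (c0, n) = (c0, n + expo Γ {w} x)) ?_ ?_ ?_ ?_ x
    · exact ⟨0, fun n _ => by simp [expo_one]⟩
    · intro u
      refine ⟨1, fun n hn => ?_⟩
      by_cases hu : u = w
      · subst hu
        rw [hαw, shift_apply, expo_gen_of_mem (Set.mem_singleton _)]
      · have hn0 : n ≠ 0 := by rintro rfl; simp at hn
        have : α (gen Γ u) = lev Y (gen Γ u, retr Γ (Γ.neighborSet w) (gen Γ u)) := by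
          simp [α, f, hu]
        rw [this, lev_apply, if_neg hn0, (hc0 _).2 (retr_mem _ _),
          expo_gen_of_notMem (by simpa using hu), add_zero]
    · rintro a b ⟨M1, h1⟩ ⟨M2, h2⟩
      refine ⟨max M2 (M1 + |expo Γ {w} b|), fun n hn => ?_⟩
      have e1 : M2 ≤ |n| := (le_max_left _ _).trans hn
      have e2 : M1 ≤ |n + expo Γ {w} b| := by
        have h3 := (le_max_right _ _).trans hn
        have h4 := abs_sub (n + expo Γ {w} b) (expo Γ {w} b)
        rw [add_sub_cancel_right] at h4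
        linarith
      rw [map_mul, Equiv.Perm.mul_apply, h2 n e1, h1 _ e2, expo_mul]
      congr 1; ring
    · rintro a ⟨M, h⟩
      refine ⟨M + |expo Γ {w} a|, fun n hn => ?_⟩
      have e2 : M ≤ |n - expo Γ {w} a| := by
        have h4 := abs_add_le (n - expo Γ {w} a) (expo Γ {w} a)
        rw [sub_add_cancel] at h4
        linarith
      rw [map_inv, Equiv.Perm.inv_eq_iff_eq, expo_inv, ← sub_eq_add_neg, h _ e2, sub_add_cancel]
  obtain ⟨M, hM⟩ := hP κ
  set e := expo Γ {w} κ with he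
  refine ⟨(|M| + |e| + 1).toNat, fun N hN g hg hg' => ?_⟩
  have hN' : |M| + |e| + 1 ≤ (N : ℤ) := by
    have := Int.self_le_toNat (|M| + |e| + 1)
    have h2 : (((|M| + |e| + 1).toNat : ℕ) : ℤ) ≤ N := by exact_mod_cast hN
    linarith
  have hM0 := le_abs_self M
  have he1 := le_abs_self e
  have he2 := neg_abs_le e
  have hM1 := abs_nonneg M
  set W := gen Γ w ^ N with hW
  set g' := (W * κ * W)⁻¹ * g * (W * κ * W) with hg'def
  have hid : g * (W * κ * W) = (W * κ * W) * g' := by rw [hg'def]; group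
  have hαW : ∀ c n, α W (c, n) = (c, n + N) := by
    intro c n; rw [hW, map_pow, hαw, shift_pow]
  have hpath : ∀ n : ℤ, M ≤ |n + N| → α (W * κ * W) (c0, n) = (c0, n + N + e + N) := by
    intro n hn
    rw [map_mul, map_mul, Equiv.Perm.mul_apply, Equiv.Perm.mul_apply, hαW c0 n, hM _ hn, hαW]
  have hgK : g ∈ K := by
    have h1 := congrArg (fun x => α x (c0, -N - e - N)) hid
    have h2 : M ≤ |-(N : ℤ) - e - N + N| := by
      rw [abs_of_nonpos (by linarith)]; linarith
    have h3 : -(N : ℤ) - e - N + N + e + N = 0 := by ring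
    rw [map_mul α g, map_mul α _ g', Equiv.Perm.mul_apply, Equiv.Perm.mul_apply,
      hoff g' hg' _ (by linarith), hpath _ h2, h3, hon g hg] at h1
    exact (hc0 g).1 (congrArg Prod.fst h1)
  have hg'K : g' ∈ K := by
    have h1 := congrArg (fun x => α x (c0, 0)) hid
    have h2 : M ≤ |(0 : ℤ) + N| := by
      rw [abs_of_nonneg (by linarith)]; linarith
    rw [map_mul α g, map_mul α _ g', Equiv.Perm.mul_apply, Equiv.Perm.mul_apply,
      hon g' hg', hpath _ h2, hoff g hg _ (by linarith), ← hpath _ h2] at h1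
    have h4 := (α (W * κ * W)).injective h1
    exact (hc0 g').1 (congrArg Prod.fst h4).symm
  have hcomm : ∀ x ∈ K, Commute W x := by
    intro x hx
    exact (commute_of_mem_par (S := {w}) (T := Γ.neighborSet w)
      (by rintro s rfl t ht; exact ht) (gen_mem_par rfl) hx).pow_left N
  refine hκ g (mem_par_inter hg hgK) ?_
  have h5 : κ⁻¹ * g * κ = g' := by
    have c1 := (hcomm g hgK).eq
    have c2 := (hcomm g' hg'K).eq
    have : W * (g * κ) * W = W * (κ * g') * W := by
      calc W * (g * κ) * W = (W * g) * κ * W := by group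
        _ = g * (W * κ * W) := by rw [c1]; group
        _ = W * κ * (W * g') := by rw [hid]; group
        _ = W * (κ * g') * W := by rw [c2]; group
    have h6 : g * κ = κ * g' := mul_left_cancel (mul_right_cancel this)
    rw [mul_assoc, h6]; group
  rw [h5]
  exact mem_par_inter hg' hg'K

/-- The graph with the vertex `v` removed. -/
abbrev del (Γ : SimpleGraph V) (v : V) : SimpleGraph {u : V // u ≠ v} := Γ.comap Subtype.val

/-- The common neighbours of `T`, as vertices of the graph with `v` removed. -/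
def cn (Γ : SimpleGraph V) (v : V) (T : Set V) : Set {u : V // u ≠ v} :=
  {u | ∀ w ∈ T, Γ.Adj w u.1}

theorem exists_mal [Nontrivial V]
    (hnj : ∀ S : Set V, S.Nonempty → Sᶜ.Nonempty → ∃ s ∈ S, ∃ t ∈ Sᶜ, ¬ Γ.Adj s t)
    (F : Finset V) (hF : ∀ u, ∃ w ∈ F, ¬ Γ.Adj u w) (v : V) (N : ℤ) :
    ∃ κ : RAAG (del Γ v), N ≤ expo (del Γ v) (cn Γ v {v})ᶜ κ ∧ Mal (del Γ v) (cn Γ v {v}) κ := by
  classical
  let Good : Set V → Prop := fun T => ∃ κ, Mal (del Γ v) (cn Γ v T) κ
  let R : Set V → Prop := fun T => v ∈ T ∧ (Good T → Good {v})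
  have hR : ∀ T, R T → ∀ t ∈ T, ∀ w, ¬ Γ.Adj t w → R (insert w T) := by
    intro T hT t ht w hw
    refine ⟨Set.mem_insert_of_mem _ hT.1, fun hG => hT.2 ?_⟩
    by_cases hwv : w = v
    · subst hwv
      rwa [Set.insert_eq_of_mem hT.1] at hG
    · obtain ⟨κ, hκ⟩ := hG
      obtain ⟨N0, hN0⟩ := mal_step (Γ := del Γ v) (S := cn Γ v T) (w := ⟨w, hwv⟩) (κ := κ)
        (fun h => hw (h t ht)) (hκ.mono (by
          rintro u ⟨hu1, hu2⟩ x hx
          rcases hx with rfl | hx
          · exact hu2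
          · exact hu1 x hx))
      exact ⟨_, hN0 N0 le_rfl⟩
  let Z : Set V := {f | ∀ T, R T → ∃ T', T ⊆ T' ∧ f ∈ T' ∧ R T'}
  have hZ : ∀ f, f ∈ Z := by
    by_contra hc
    push Not at hc
    obtain ⟨s, hs, t, ht, hst⟩ := hnj Z ⟨v, fun T hT => ⟨T, le_rfl, hT.1, hT⟩⟩ hc
    apply ht
    intro T hT
    obtain ⟨T', h1, h2, h3⟩ := hs T hT
    exact ⟨insert t T', h1.trans (Set.subset_insert _ _), Set.mem_insert _ _, hR T' h3 s h2 t hst⟩
  have hall : ∀ F' : Finset V, ∃ T, (F' : Set V) ⊆ T ∧ R T := by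
    intro F'
    induction F' using Finset.induction_on with
    | empty => exact ⟨{v}, by simp, rfl, id⟩
    | insert a F' _ ih =>
      obtain ⟨T, h1, h2⟩ := ih
      obtain ⟨T', h3, h4, h5⟩ := hZ a T h2
      refine ⟨T', ?_, h5⟩
      rw [Finset.coe_insert]
      exact Set.insert_subset h4 (h1.trans h3)
  obtain ⟨T, hT1, hT2⟩ := hall F
  obtain ⟨κ, hκ⟩ := hT2.2 ⟨1, mal_empty.mono (by
    intro u hu
    obtain ⟨w, hw, hadj⟩ := hF u.1
    exact hadj (hu w (hT1 hw)).symm)⟩
  obtain ⟨s, hs, w, hw, hsw⟩ := hnj {v} ⟨v, rfl⟩ (by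
    obtain ⟨u, hu⟩ := exists_ne v
    exact ⟨u, hu⟩)
  have hs' : s = v := hs
  subst hs'
  have hw' : (⟨w, hw⟩ : {u : V // u ≠ s}) ∉ cn Γ s {s} := fun h => hsw (h s rfl)
  obtain ⟨N0, hN0⟩ := mal_step (Γ := del Γ s) (S := cn Γ s {s}) (w := ⟨w, hw⟩) (κ := κ) hw'
    (hκ.mono Set.inter_subset_left)
  refine ⟨_, ?_, hN0 (N0 + (|N| + |expo (del Γ s) (cn Γ s {s})ᶜ κ|).toNat) (by omega)⟩
  rw [expo_mul, expo_mul, expo_pow, expo_gen_of_mem (show _ ∈ (cn Γ s {s})ᶜ from hw')]
  have h1 := Int.self_le_toNat (|N| + |expo (del Γ s) (cn Γ s {s})ᶜ κ|)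
  have h2 := le_abs_self N
  have h3 := neg_abs_le (expo (del Γ s) (cn Γ s {s})ᶜ κ)
  have h4 := abs_nonneg N
  have h5 := abs_nonneg (expo (del Γ s) (cn Γ s {s})ᶜ κ)
  push_cast
  have h6 : (0 : ℤ) ≤ N0 := Int.natCast_nonneg _
  linarith

end Pool.Agent.MP_781439_al
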