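import Pool.Agent.MP_781439_al.Basic

/-!
If every finite set of vertices has a common neighbour, the right-angled Artin group has no
sharply `k`-transitive action on the ordered rationals for `k ≥ 2`.  An explicit graph on `ℕ` has
this property while its group is neither cyclic nor a direct product of two infinite groups.
-/

namespace Pool.Agent.MP_781439_al

lemma fixes_of_commute {G : Type} [Group G] {k : ℕ} {θ : G →* Equiv.Perm ℚ}
    (hmono : ∀ g, StrictMono (θ g))
    (hsharp : ∀ A B : Finset ℚ, A.card = k → B.card = k → ∃! g : G, A.image (θ g) = B)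
    {g h : G} (hg : g ≠ 1) (hc : Commute g h) {x : ℚ} (hx : θ g x = x) : θ h x = x := by
  classical
  have hfin : {y : ℚ | θ g y = y}.Finite := by
    by_contra hinf
    obtain ⟨A, hA, hcard⟩ := Set.Infinite.exists_subset_card_eq hinf k
    obtain ⟨g', -, huniq⟩ := hsharp A A hcard hcard
    have h1 : g = g' := huniq g (by
      ext y
      simp only [Finset.mem_image]
      constructor
      · rintro ⟨a, ha, rfl⟩
        have : θ g a = a := hA ha
        rwa [this]
      · intro hy; exact ⟨y, hy, hA hy⟩)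
    have h2 : 1 = g' := huniq 1 (by simp)
    exact hg (h1.trans h2.symm)
  have : Finite {y : ℚ | θ g y = y} := hfin
  let f : {y : ℚ | θ g y = y} → {y : ℚ | θ g y = y} := fun y => ⟨θ h y.1, by
    have hy : θ g y.1 = y.1 := y.2
    change θ g (θ h y.1) = θ h y.1
    rw [← Equiv.Perm.mul_apply, ← map_mul, hc.eq, map_mul, Equiv.Perm.mul_apply, hy]⟩
  have hf : StrictMono f := fun a b hab => hmono h hab
  have h1 : (⟨x, hx⟩ : {y : ℚ | θ g y = y}) ≤ f ⟨x, hx⟩ := hf.le_apply
  have h2 : f ⟨x, hx⟩ ≤ (⟨x, hx⟩ : {y : ℚ | θ g y = y}) := hf.apply_le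
  exact congrArg Subtype.val (le_antisymm h2 h1)

theorem no_action_of_common_neighbours {V : Type} (Γ : SimpleGraph V)
    (hΓ : ∀ F : Finset V, ∃ u, ∀ w ∈ F, Γ.Adj u w) {k : ℕ} (hk : 2 ≤ k) :
    ¬ HasSharplyTransitiveAction (RAAG Γ) k := by
  classical
  rintro ⟨θ, hmono, hsharp⟩
  let A : Finset ℚ := (Finset.range k).image (fun i : ℕ => (i : ℚ))
  let B : Finset ℚ := (Finset.range k).image (fun i : ℕ => 2 * (i : ℚ))
  let C : Finset ℚ := (Finset.range k).image (fun i : ℕ => (i : ℚ) + 1)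
  have hA : A.card = k := by
    rw [Finset.card_image_of_injective _ Nat.cast_injective, Finset.card_range]
  have hB : B.card = k := by
    rw [Finset.card_image_of_injective, Finset.card_range]
    intro a b hab
    have : (a : ℚ) = b := by simpa using hab
    exact_mod_cast this
  have hC : C.card = k := by
    rw [Finset.card_image_of_injective, Finset.card_range]
    intro a b hab
    have : (a : ℚ) = b := by simpa using hab
    exact_mod_cast this
  have h0A : (0 : ℚ) ∈ A := Finset.mem_image.2 ⟨0, Finset.mem_range.2 (by omega), by simp⟩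
  have h0B : (0 : ℚ) ∈ B := Finset.mem_image.2 ⟨0, Finset.mem_range.2 (by omega), by simp⟩
  obtain ⟨g0, hg0, -⟩ := hsharp A B hA hB
  have hg0ne : g0 ≠ 1 := by
    rintro rfl
    have h1A : (1 : ℚ) ∈ A := Finset.mem_image.2 ⟨1, Finset.mem_range.2 (by omega), by simp⟩
    have h1B : (1 : ℚ) ∈ B := by rw [← hg0]; exact Finset.mem_image.2 ⟨1, h1A, by simp⟩
    obtain ⟨i, -, hi⟩ := Finset.mem_image.1 h1B
    have : 2 * i = 1 := by exact_mod_cast hi
    omega
  have hfix : θ g0 0 = 0 := by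
    apply le_antisymm
    · rw [← hg0] at h0B
      obtain ⟨a, ha, ha0⟩ := Finset.mem_image.1 h0B
      obtain ⟨i, -, rfl⟩ := Finset.mem_image.1 ha
      exact ((hmono g0).monotone (Nat.cast_nonneg i)).trans ha0.le
    · have : θ g0 0 ∈ B := by rw [← hg0]; exact Finset.mem_image_of_mem _ h0A
      obtain ⟨i, -, hi⟩ := Finset.mem_image.1 this
      rw [← hi]; positivity
  obtain ⟨g, hg, -⟩ := hsharp A C hA hC
  obtain ⟨F, hF⟩ := exists_finset_par g0
  obtain ⟨F', hF'⟩ := exists_finset_par g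
  obtain ⟨u, hu⟩ := hΓ (F ∪ F')
  have hc1 : Commute g0 (gen Γ u) :=
    (commute_of_mem_par (S := {u}) (T := (F : Set V))
      (by rintro s rfl t ht; exact hu t (Finset.mem_union_left _ ht)) (gen_mem_par rfl) hF).symm
  have hc2 : Commute (gen Γ u) g :=
    commute_of_mem_par (S := {u}) (T := (F' : Set V))
      (by rintro s rfl t ht; exact hu t (Finset.mem_union_right _ ht)) (gen_mem_par rfl) hF'
  have h1 := fixes_of_commute hmono hsharp hg0ne hc1 hfix
  have h2 := fixes_of_commute hmono hsharp (gen_ne_one u) hc2 h1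
  have : θ g 0 ∈ C := by rw [← hg]; exact Finset.mem_image_of_mem _ h0A
  obtain ⟨i, -, hi⟩ := Finset.mem_image.1 this
  rw [h2] at hi
  have : (0 : ℚ) ≤ i := Nat.cast_nonneg i
  linarith

/-- Left multiplication on the first coordinate. -/
def leftMulPerm {G : Type} [Group G] (X : Type) : G →* Equiv.Perm (G × X) where
  toFun g := Equiv.prodCongr (Equiv.mulLeft g) (Equiv.refl X)
  map_one' := by ext x <;> simp
  map_mul' a b := by ext x <;> simp [mul_assoc]

@[simp] lemma leftMulPerm_apply {G : Type} [Group G] {X : Type} (g x : G) (i : X) :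
    leftMulPerm X g (x, i) = (g * x, i) := rfl

theorem not_commute_conj {V : Type} (Γ : SimpleGraph V) {F : Set V} {w : V} (hw : w ∉ F)
    (hadj : ∀ u ∈ F, ¬ Γ.Adj u w) {a b : RAAG Γ} (ha : a ∈ par Γ F) (hb : b ∈ par Γ F)
    (ha1 : a ≠ 1) (hb1 : b ≠ 1) : ¬ Commute (gen Γ w * a * (gen Γ w)⁻¹) b := by
  classical
  let σ : Equiv.Perm (RAAG Γ × Fin 3) :=
    Equiv.swap (1, 0) (1, 2) * Equiv.swap (1, 0) (1, 1)
  let f : V → Equiv.Perm (RAAG Γ × Fin 3) := fun u =>
    if u ∈ F then leftMulPerm (Fin 3) (gen Γ u) else if u = w then σ⁻¹ else 1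
  have hf : ∀ u v, Γ.Adj u v → Commute (f u) (f v) := by
    intro u v huv
    by_cases hu : u ∈ F <;> by_cases hv : v ∈ F
    · simp only [f, hu, hv, if_true]; exact (gen_comm huv).map _
    · have : v ≠ w := by rintro rfl; exact hadj u hu huv
      simp [f, hu, hv, this]
    · have : u ≠ w := by rintro rfl; exact hadj v hv huv.symm
      simp [f, hu, hv, this]
    · by_cases h1 : u = w
      · have : v ≠ w := by rintro rfl; exact huv.ne h1
        simp [f, hv, this]
      · simp [f, hu, h1]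
  let Θ : RAAG Γ →* Equiv.Perm (RAAG Γ × Fin 3) := lift f hf
  have hΘ : ∀ g ∈ par Γ F, Θ g = leftMulPerm (Fin 3) g := by
    intro g hg
    refine par_induction (P := fun g => Θ g = leftMulPerm (Fin 3) g) ?_ ?_ ?_ ?_ hg
    · simp
    · intro u hu; simp [Θ, f, hu]
    · intro x y hx hy; rw [map_mul, map_mul, hx, hy]
    · intro x hx; rw [map_inv, map_inv, hx]
  have hw' : Θ (gen Γ w) = σ⁻¹ := by simp [Θ, f, hw]
  intro hc
  have h1 := congrArg (fun e : Equiv.Perm (RAAG Γ × Fin 3) => (e (1, 0)).2) (hc.map Θ).eq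
  simp only [map_mul, map_inv, hw', hΘ a ha, hΘ b hb, inv_inv, Equiv.Perm.mul_apply,
    leftMulPerm_apply, mul_one] at h1
  have e1 : ∀ x : RAAG Γ, x ≠ 1 → ∀ i, σ (x, i) = (x, i) := by
    intro x hx i
    simp [σ, Equiv.swap_apply_of_ne_of_ne, hx]
  have e2 : ∀ x : RAAG Γ, x ≠ 1 → ∀ i, σ⁻¹ (x, i) = (x, i) := by
    intro x hx i
    rw [Equiv.Perm.inv_eq_iff_eq, e1 x hx]
  have e3 : σ (1, 0) = (1, 1) := by
    simp [σ, Equiv.swap_apply_of_ne_of_ne]
  have e4 : σ (1, 2) = (1, 0) := by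
    simp [σ, Equiv.swap_apply_of_ne_of_ne]
  have e5 : σ⁻¹ (1, 0) = (1, 2) := by rw [Equiv.Perm.inv_eq_iff_eq, e4]
  rw [e1 b hb1, e3] at h1
  simp only [leftMulPerm_apply, mul_one] at h1
  rw [e2 a ha1, leftMulPerm_apply] at h1
  by_cases hab : a * b = 1
  · rw [hab, e5] at h1
    exact absurd h1 (show ¬ ((2 : Fin 3) = 1) by decide)
  · rw [e2 _ hab] at h1
    exact absurd h1 (show ¬ ((0 : Fin 3) = 1) by decide)

theorem not_product_of_free_vertices {V : Type} (Γ : SimpleGraph V)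
    (hΓ : ∀ F : Finset V, ∃ w, w ∉ F ∧ ∀ u ∈ F, ¬ Γ.Adj u w) :
    ¬ IsProductOfInfinite (RAAG Γ) := by
  classical
  rintro ⟨H₁, H₂, _, _, h1, h2, ⟨e⟩⟩
  obtain ⟨x, hx⟩ := exists_ne (1 : H₁)
  obtain ⟨y, hy⟩ := exists_ne (1 : H₂)
  obtain ⟨F, hF⟩ := exists_finset_par (e.symm (x, 1))
  obtain ⟨F', hF'⟩ := exists_finset_par (e.symm (1, y))
  obtain ⟨w, hw, hadj⟩ := hΓ (F ∪ F')
  refine not_commute_conj Γ (F := ((F ∪ F' : Finset V) : Set V)) (w := w) hw hadj
    (par_mono (by simp) hF) (par_mono (by simp) hF') ?_ ?_ ?_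
  · intro h
    have := congrArg e h
    simp at this
    exact hx this
  · intro h
    have := congrArg e h
    simp at this
    exact hy this
  · apply e.injective
    simp only [map_mul, map_inv, MulEquiv.apply_symm_apply]
    ext <;> simp

theorem not_cyclic_of_free_vertices {V : Type} (Γ : SimpleGraph V)
    (hΓ : ∀ F : Finset V, ∃ w, w ∉ F ∧ ∀ u ∈ F, ¬ Γ.Adj u w) : ¬ IsCyclic (RAAG Γ) := by
  intro hc
  obtain ⟨u, -, -⟩ := hΓ ∅
  obtain ⟨w, hw, hadj⟩ := hΓ {u}
  refine not_commute_conj Γ (F := (({u} : Finset V) : Set V)) (w := w) hw hadj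
    (gen_mem_par (by simp)) (gen_mem_par (by simp)) (gen_ne_one u) (gen_ne_one u) ?_
  obtain ⟨g, hg⟩ := hc
  obtain ⟨m, hm⟩ := hg (gen Γ w * gen Γ u * (gen Γ w)⁻¹)
  obtain ⟨n, hn⟩ := hg (gen Γ u)
  rw [← hm, ← hn]
  exact Commute.zpow_zpow_self g m n

/-- The graph on `ℕ` in which `i < j` are adjacent exactly when `j` is even. -/
def evenGraph : SimpleGraph ℕ := SimpleGraph.fromRel (fun i j => i < j ∧ Even j)

theorem counterexample : ∃ Γ : SimpleGraph ℕ, ¬ IsCyclic (RAAG Γ) ∧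
    ¬ IsProductOfInfinite (RAAG Γ) ∧ ∀ k : ℕ, 2 ≤ k → ¬ HasSharplyTransitiveAction (RAAG Γ) k := by
  have h1 : ∀ F : Finset ℕ, ∃ w, w ∉ F ∧ ∀ u ∈ F, ¬ evenGraph.Adj u w := by
    intro F
    refine ⟨2 * F.sup id + 1, fun h => ?_, fun u hu => ?_⟩
    · have : 2 * F.sup id + 1 ≤ F.sup id := Finset.le_sup (f := id) h
      omega
    · have : u ≤ F.sup id := Finset.le_sup (f := id) hu
      rw [evenGraph, SimpleGraph.fromRel_adj]
      rintro ⟨-, ⟨-, h⟩ | ⟨h, -⟩⟩
      · rw [Nat.even_iff] at h; omega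
      · omega
  have h2 : ∀ F : Finset ℕ, ∃ u, ∀ w ∈ F, evenGraph.Adj u w := by
    intro F
    refine ⟨2 * (F.sup id + 1), fun w hw => ?_⟩
    have : w ≤ F.sup id := Finset.le_sup (f := id) hw
    rw [evenGraph, SimpleGraph.fromRel_adj]
    exact ⟨by omega, Or.inr ⟨by omega, even_two_mul _⟩⟩
  exact ⟨evenGraph, not_cyclic_of_free_vertices _ h1, not_product_of_free_vertices _ h1,
    fun k hk => no_action_of_common_neighbours _ h2 hk⟩

end Pool.Agent.MP_781439_al
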